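import Pool.Agent.Helper877_Fin.Cnt

set_option autoImplicit false

open scoped MeasureTheory ENNReal Topology InnerProductSpace
open MeasureTheory Set Filter
open Pool.Agent.R154.Steiner

namespace Pool.Agent.Helper877_Fin

section inner

variable {E : Type*} [NormedAddCommGroup E] [InnerProductSpace ℝ E]

/-- `p` is a branching point of `S`. -/
def IsBr (A S : Set E) (p : E) : Prop :=
  p ∈ S \ A ∧ ∃ η : ℝ, 0 < η ∧ ∃ D : Finset E, 3 ≤ D.card ∧ (∀ u ∈ D, ‖u‖ = 1) ∧
    S ∩ Metric.ball p η = {x | ∃ u ∈ D, ∃ t : ℝ, 0 ≤ t ∧ x = p + t • u} ∩ Metric.ball p η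

lemma dirs_le_two {a b p : E} {δ : ℝ} (hδ : 0 < δ) (D : Finset E) (hD : ∀ u ∈ D, ‖u‖ = 1)
    (hp : p ∈ segment ℝ a b) (h : ∀ u ∈ D, p + δ • u ∈ segment ℝ a b) : D.card ≤ 2 := by
  classical
  rw [segment_eq_image'] at hp
  obtain ⟨s, _, hs⟩ := hp
  simp only at hs
  have hsub : D ⊆ {(‖b - a‖⁻¹) • (b - a), -((‖b - a‖⁻¹) • (b - a))} := by
    intro u hu
    have h1 := h u hu
    rw [segment_eq_image'] at h1
    obtain ⟨s', _, hs'⟩ := h1
    simp only at hs'
    have h2 : δ • u = (s' - s) • (b - a) := by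
      have h3 : p + δ • u - p = (a + s' • (b - a)) - (a + s • (b - a)) := by rw [hs, hs']
      rw [add_sub_cancel_left] at h3
      rw [h3, sub_smul]
      abel
    have h4 : u = ((s' - s) / δ) • (b - a) := by
      rw [div_eq_inv_mul, mul_smul, ← h2, smul_smul, inv_mul_cancel₀ hδ.ne', one_smul]
    have h5 : |(s' - s) / δ| * ‖b - a‖ = 1 := by
      rw [← Real.norm_eq_abs, ← norm_smul, ← h4]
      exact hD u hu
    have h6 : ‖b - a‖ ≠ 0 := by
      intro h0
      rw [h0, mul_zero] at h5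
      exact zero_ne_one h5
    have h7 : |(s' - s) / δ| = ‖b - a‖⁻¹ := eq_inv_of_mul_eq_one_left h5
    rw [Finset.mem_insert, Finset.mem_singleton]
    rcases abs_choice ((s' - s) / δ) with h8 | h8
    · left
      rw [← h7, h8]
      exact h4
    · right
      rw [← h7, h8, neg_smul, neg_neg]
      exact h4
  exact (Finset.card_le_card hsub).trans Finset.card_le_two

variable [MeasurableSpace E] [BorelSpace E]

/-- The branching points in one component. -/
lemma br_comp {A S : Set E} {x : E} {ρ : ℝ} {C L : Set E} {κ : Type} [Fintype κ] {I : κ → Set E}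
    {p q : κ → E} (hC : C = ⋃ k, I k) (hI : ∀ k, I k = segment ℝ (p k) (q k))
    (hnull : ∀ k l, k ≠ l → μH[1] (I k ∩ I l) = 0) (hLc : IsClosed L) (hLC : ∀ z ∈ L, z ∉ C)
    (hcov : S ∩ Metric.closedBall x ρ ⊆ C ∪ L) :
    {y | y ∈ Metric.ball x ρ ∧ y ∈ C ∧ IsBr A S y}.encard ≤ ((Fintype.card κ ^ 2 : ℕ) : ℕ∞) := by
  classical
  have hIc : ∀ k, IsClosed (I k) := by
    intro k
    rw [hI k, segment_eq_image_lineMap]
    exact (isCompact_Icc.image AffineMap.lineMap_continuous).isClosed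
  have htwo : ∀ y, y ∈ Metric.ball x ρ ∧ y ∈ C ∧ IsBr A S y →
      ∃ kl : κ × κ, kl.1 ≠ kl.2 ∧ y ∈ I kl.1 ∧ y ∈ I kl.2 := by
    rintro y ⟨hyb, hyC, ⟨_, _⟩, η, hη, D, hD3, hD1, hSD⟩
    by_contra hcon
    push Not at hcon
    have hyC' := hyC
    rw [hC] at hyC'
    obtain ⟨k, hk⟩ := mem_iUnion.mp hyC'
    set L' : Set E := L ∪ ⋃ l ∈ Finset.univ.erase k, I l with hL'
    have hL'c : IsClosed L' := by
      refine hLc.union ((Finset.finite_toSet _).isClosed_biUnion fun l _ => hIc l)
    have hyL' : y ∉ L' := by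
      rintro (h | h)
      · exact hLC y h hyC
      · obtain ⟨l, hl, hyl⟩ := mem_iUnion₂.mp h
        exact hcon (k, l) (Finset.ne_of_mem_erase hl).symm hk hyl
    obtain ⟨ε, hε, hball⟩ := Metric.isOpen_iff.mp (hL'c.isOpen_compl.inter
      Metric.isOpen_ball) y ⟨hyL', hyb⟩
    set δ := min (ε / 2) (η / 2) with hδ
    have hδ0 : 0 < δ := lt_min (by positivity) (by positivity)
    have hcard := dirs_le_two hδ0 D hD1 (a := p k) (b := q k) (p := y) (by rw [← hI k]; exact hk)
      (by
        intro u hu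
        have hd : dist (y + δ • u) y = δ := by
          rw [dist_eq_norm, add_sub_cancel_left, norm_smul, hD1 u hu, mul_one,
            Real.norm_of_nonneg hδ0.le]
        have h1 : y + δ • u ∈ Metric.ball y η := by
          rw [Metric.mem_ball, hd]
          exact lt_of_le_of_lt (min_le_right _ _) (by linarith)
        have h2 : y + δ • u ∈ S ∩ Metric.ball y η := by
          rw [hSD]
          exact ⟨⟨u, hu, δ, hδ0.le, rfl⟩, h1⟩
        have h3 : y + δ • u ∈ Metric.ball y ε := by
          rw [Metric.mem_ball, hd]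
          exact lt_of_le_of_lt (min_le_left _ _) (by linarith)
        obtain ⟨h4, h5⟩ := hball h3
        rcases hcov ⟨h2.1, Metric.ball_subset_closedBall h5⟩ with h6 | h6
        · rw [hC] at h6
          obtain ⟨l, hl⟩ := mem_iUnion.mp h6
          by_cases hlk : l = k
          · subst hlk
            rw [← hI l]
            exact hl
          · exfalso
            exact h4 (Or.inr (mem_iUnion₂.mpr ⟨l, Finset.mem_erase.mpr ⟨hlk, Finset.mem_univ l⟩, hl⟩))
        · exact absurd (Or.inl h6) h4)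
    omega
  rcases isEmpty_or_nonempty κ with hκe | hκn
  · have h0 : {y | y ∈ Metric.ball x ρ ∧ y ∈ C ∧ IsBr A S y} = ∅ := by
      rw [eq_empty_iff_forall_notMem]
      intro y hy
      obtain ⟨kl, _⟩ := htwo y hy
      exact hκe.elim kl.1
    rw [h0, Set.encard_empty]
    exact zero_le
  choose! φ hφ using htwo
  have hinj : InjOn φ {y | y ∈ Metric.ball x ρ ∧ y ∈ C ∧ IsBr A S y} := by
    intro y hy y' hy' heq
    by_contra hne
    obtain ⟨h1, h2, h3⟩ := hφ y hy
    obtain ⟨g1, g2, g3⟩ := hφ y' hy'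
    rw [← heq] at g2 g3
    have hsub : segment ℝ y y' ⊆ I (φ y).1 ∩ I (φ y).2 := by
      refine subset_inter ?_ ?_
      · rw [hI] at h2 g2 ⊢
        exact (convex_segment _ _).segment_subset h2 g2
      · rw [hI] at h3 g3 ⊢
        exact (convex_segment _ _).segment_subset h3 g3
    have h4 := measure_mono_null hsub (hnull _ _ h1)
    rw [hausdorffMeasure_segment] at h4
    exact hne (edist_eq_zero.mp h4)
  have h1 := Set.encard_le_encard_of_injOn (t := (univ : Set (κ × κ))) (fun y _ => mem_univ (φ y))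
    hinj
  refine h1.trans ?_
  rw [Set.encard_univ, ENat.card_eq_coe_fintype_card, Fintype.card_prod, sq]

lemma encard_biUnion_le {X : Type*} {ι : Type*} (F : Finset ι) (B : ι → Set X) (m : ℕ)
    (h : ∀ f ∈ F, (B f).encard ≤ (m : ℕ∞)) : (⋃ f ∈ F, B f).encard ≤ ((F.card * m : ℕ) : ℕ∞) := by
  classical
  induction F using Finset.induction_on with
  | empty => simp
  | insert a F ha ih =>
    rw [Finset.set_biUnion_insert, Finset.card_insert_of_notMem ha, add_mul, one_mul, add_comm,
      Nat.cast_add]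
    refine (Set.encard_union_le _ _).trans (add_le_add (h a (Finset.mem_insert_self a F)) ?_)
    exact ih fun f hf => h f (Finset.mem_insert_of_mem hf)

/-- The number of branching points inside a ball whose boundary sphere meets the tree in `n`
points is at most `n (2 n + 1) ^ 2`. -/
theorem br_count {A S : Set E} (hA : IsClosed A) (hS : IsClosed S) (hScomp : IsCompact S)
    (hSconn : IsPreconnected S) (hSA : IsPreconnected (S ∪ A)) (hfin : μH[1] S ≠ ⊤) {x : E} {r : ℝ}
    (hmin : ∀ T : Set E, IsClosed T → IsConnected (T ∪ A) → S \ Metric.ball x r ⊆ T →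
      μH[1] S ≤ μH[1] T)
    (hAr : A ∩ Metric.ball x r = ∅) {ρ : ℝ} (hρr : ρ < r) {z : E} (hz : z ∈ S)
    (hzx : ρ ≤ dist z x) (F : Finset E) (hF : (F : Set E) = S ∩ Metric.sphere x ρ) :
    {y | y ∈ Metric.ball x ρ ∧ IsBr A S y}.encard ≤
      ((F.card * (2 * F.card + 1) ^ 2 : ℕ) : ℕ∞) := by
  classical
  set K := S ∩ Metric.closedBall x ρ with hK
  have hKc : IsClosed K := hS.inter Metric.isClosed_closedBall
  have hFK : ∀ g ∈ F, g ∈ K := by
    intro g hg
    have h1 : g ∈ (F : Set E) := hg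
    rw [hF] at h1
    exact ⟨h1.1, Metric.sphere_subset_closedBall h1.2⟩
  have hreach : ∀ p ∈ K, ∃ e ∈ F, p ∈ connectedComponentIn K e := by
    intro p hp
    obtain ⟨e, he, hpe⟩ := reach_sphere hScomp hSconn hfin hp.1 hp.2 hz hzx
    rw [← hF] at he
    exact ⟨e, he, hpe⟩
  have hsub : {y | y ∈ Metric.ball x ρ ∧ IsBr A S y} ⊆
      ⋃ f ∈ F, {y | y ∈ Metric.ball x ρ ∧ y ∈ connectedComponentIn K f ∧ IsBr A S y} := by
    rintro y ⟨hyb, hy⟩
    obtain ⟨e, he, hye⟩ := hreach y ⟨hy.1.1, Metric.ball_subset_closedBall hyb⟩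
    exact mem_iUnion₂.mpr ⟨e, he, hyb, hye, hy⟩
  refine (Set.encard_le_encard hsub).trans ?_
  apply encard_biUnion_le
  intro f hf
  set C := connectedComponentIn K f with hC
  have hCc : IsClosed C := isClosed_cc hKc f (hFK f hf)
  have hCK : C ⊆ K := connectedComponentIn_subset K f
  have hCS : C ⊆ S := fun z hz => (hCK hz).1
  let F' : Finset E := F.filter fun g => g ∈ C
  have hF'C : (F' : Set E) ⊆ C := by
    intro g hg
    exact (Finset.mem_filter.mp hg).2
  obtain ⟨κ, hκ, I, p, q, hcard, hCI, hI, hnull⟩ := minimal_structure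
    (hScomp.of_isClosed_subset hCc hCS) isPreconnected_connectedComponentIn
    (ne_top_of_le_ne_top hfin (measure_mono hCS)) F' hF'C ⟨f, mem_connectedComponentIn (hFK f hf)⟩
    (by
      intro C' hC'c hC' hFC'
      refine comp_min hA hS hScomp hSconn hSA hfin hmin hAr hρr hz hzx F hF hf C' hC'c hC' ?_
      rintro g ⟨hg1, hg2⟩
      exact hFC' (Finset.mem_filter.mpr ⟨hg1, hg2⟩))
  let G : Finset E := F.filter fun g => g ∉ C
  set R : Set E := ⋃ g ∈ G, connectedComponentIn K g with hR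
  have hRc : IsClosed R := by
    refine G.finite_toSet.isClosed_biUnion fun g hg => ?_
    have hg' : g ∈ F := (Finset.mem_filter.mp hg).1
    exact isClosed_cc hKc g (hFK g hg')
  have hRC : ∀ z ∈ R, z ∉ C := by
    intro z hz hzC
    obtain ⟨g, hg, hzg⟩ := mem_iUnion₂.mp hz
    obtain ⟨hgF, hgC⟩ := Finset.mem_filter.mp hg
    have h1 := connectedComponentIn_eq hzg
    have h2 := connectedComponentIn_eq hzC
    apply hgC
    rw [hC, h2, ← h1]
    exact mem_connectedComponentIn (hFK g hgF)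
  have hKCR : K ⊆ C ∪ R := by
    intro p hp
    obtain ⟨e, he, hpe⟩ := hreach p hp
    by_cases heC : e ∈ C
    · left
      have h1 := connectedComponentIn_eq heC
      rw [hC, h1]
      exact hpe
    · right
      exact mem_iUnion₂.mpr ⟨e, Finset.mem_filter.mpr ⟨he, heC⟩, hpe⟩
  have h1 := br_comp (A := A) (S := S) (x := x) (ρ := ρ) hCI hI hnull hRc hRC hKCR
  refine h1.trans ?_
  have h2 : F'.card ≤ F.card := Finset.card_filter_le _ _
  have h3 : Fintype.card κ ^ 2 ≤ (2 * F.card + 1) ^ 2 := by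
    rw [hcard]
    exact Nat.pow_le_pow_left (by omega) 2
  exact_mod_cast h3

end inner

/-- The bound for the number of branching points inside `B_{tr}(x)`. -/
theorem br_bound {d : ℕ} {A S : Set (EuclideanSpace ℝ (Fin d))} (hA : IsClosed A) (hS : IsClosed S)
    (hSconn : IsConnected S) (hSA : IsPreconnected (S ∪ A)) (hfin : μH[1] S ≠ ⊤)
    {x : EuclideanSpace ℝ (Fin d)} {r : ℝ} (hr : 0 < r)
    (hmin : ∀ T : Set (EuclideanSpace ℝ (Fin d)), IsClosed T → IsConnected (T ∪ A) →
      S \ Metric.ball x r ⊆ T → μH[1] S ≤ μH[1] T)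
    (hAr : A ∩ Metric.ball x r = ∅) {t : ℝ} (ht0 : 0 < t) (ht1 : t < 1) {N : ℕ} (hN : 0 < N)
    (hNt : Real.sqrt d * 2 ^ (d + 3) ≤ N * (1 - t)) {M : ℕ}
    (hM : 4 * Real.sqrt d * (3 * N : ℝ) ^ d ≤ M * (1 - t)) :
    {y | y ∈ Metric.ball x (t * r) ∧ IsBr A S y}.encard ≤ ((M * (2 * M + 1) ^ 2 : ℕ) : ℕ∞) := by
  classical
  have h1t : 0 < 1 - t := by linarith
  have hScomp := compact_of_finite hS hSconn.isPreconnected hfin
  by_cases hSb : ∀ z ∈ S, dist z x < r
  · -- then `S` is a single point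
    have hempty : {y | y ∈ Metric.ball x (t * r) ∧ IsBr A S y} = ∅ := by
      rw [eq_empty_iff_forall_notMem]
      rintro y ⟨_, ⟨hyS, _⟩, η, hη, D, hD3, hD1, hSD⟩
      have hA0 : A = ∅ := by
        by_contra hne
        obtain ⟨a, ha⟩ := nonempty_iff_ne_empty.mpr hne
        obtain ⟨z, _, hz1, hz2⟩ := isPreconnected_closed_iff.mp hSA S A hS hA Subset.rfl
          ⟨y, Or.inl hyS, hyS⟩ ⟨a, Or.inr ha, ha⟩
        have : z ∈ A ∩ Metric.ball x r := ⟨hz2, hSb z hz1⟩
        rw [hAr] at this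
        exact this
      have h1 := hmin {y} isClosed_singleton
        (by rw [hA0, union_empty]; exact isConnected_singleton)
        (by
          intro z hz
          exact absurd (hSb z hz.1) hz.2)
      rw [noAtom] at h1
      obtain ⟨u, hu⟩ : D.Nonempty := Finset.card_pos.mp (by omega)
      have hd : dist (y + (η / 2) • u) y = η / 2 := by
        rw [dist_eq_norm, add_sub_cancel_left, norm_smul, hD1 u hu, mul_one,
          Real.norm_of_nonneg (by positivity)]
      have h2 : y + (η / 2) • u ∈ S ∩ Metric.ball y η := by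
        rw [hSD]
        refine ⟨⟨u, hu, η / 2, by positivity, rfl⟩, ?_⟩
        rw [Metric.mem_ball, hd]
        linarith
      have h3 := H_conn hSconn.isPreconnected h2.1 hyS
      rw [hd] at h3
      have h4 := h3.trans h1
      rw [nonpos_iff_eq_zero, ENNReal.ofReal_eq_zero] at h4
      linarith
    rw [hempty, Set.encard_empty]
    exact zero_le
  · push Not at hSb
    obtain ⟨z, hz, hzr⟩ := hSb
    have hloc : LocMin S x r := locMin_of_set' hA hS hSA hfin hmin hAr
    have hfin' : ∀ s, μH[1] (S ∩ Metric.ball x s) ≠ ⊤ := fun s =>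
      ne_top_of_le_ne_top hfin (measure_mono inter_subset_left)
    have ht'0 : 0 < (1 + t) / 2 := by linarith
    have ht'1 : (1 + t) / 2 < 1 := by linarith
    have hlen := length_bound hS hr (hfin' r) hloc ht'0 ht'1 hN (by
      rw [pow_succ] at hNt
      linarith)
    have hlt : t * r < (1 + t) / 2 * r := by nlinarith
    obtain ⟨ρ, hρ, F, hF, hFc⟩ := exists_slice
      (hS.measurableSet.inter Metric.isOpen_ball.measurableSet :
        MeasurableSet (S ∩ Metric.ball x ((1 + t) / 2 * r)))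
      (f := fun y => dist y x) (LipschitzWith.dist_left x) hlt
      (ENNReal.toReal_nonneg (a := μH[1] (S ∩ Metric.ball x ((1 + t) / 2 * r))))
      (by rw [ENNReal.ofReal_toReal (hfin' _)])
    have hFs : (F : Set (EuclideanSpace ℝ (Fin d))) = S ∩ Metric.sphere x ρ := by
      rw [hF]
      ext w
      constructor
      · rintro ⟨⟨hw, _⟩, hw2⟩
        exact ⟨hw, hw2⟩
      · rintro ⟨hw, hw2⟩
        refine ⟨⟨hw, ?_⟩, hw2⟩
        rw [Metric.mem_sphere] at hw2
        rw [Metric.mem_ball, hw2]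
        exact hρ.2
    have hρr : ρ < r := hρ.2.trans (by nlinarith)
    have h1 := br_count hA hS hScomp hSconn.isPreconnected hSA hfin hmin hAr hρr hz
      (hρr.le.trans hzr) F hFs
    have hcard : F.card ≤ M := by
      have h2 : (F.card : ℝ) * ((1 + t) / 2 * r - t * r) ≤
          2 * ((3 * N : ℝ) ^ d * (Real.sqrt d * r)) := hFc.trans hlen
      have h3 : (F.card : ℝ) * (1 - t) * r ≤ (4 * Real.sqrt d * (3 * N : ℝ) ^ d) * r := by
        nlinarith
      have h4 : (F.card : ℝ) * (1 - t) ≤ 4 * Real.sqrt d * (3 * N : ℝ) ^ d :=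
        le_of_mul_le_mul_right h3 hr
      have h5 : (F.card : ℝ) * (1 - t) ≤ M * (1 - t) := h4.trans hM
      have h6 : (F.card : ℝ) ≤ M := le_of_mul_le_mul_right h5 h1t
      exact_mod_cast h6
    have hsub : {y | y ∈ Metric.ball x (t * r) ∧ IsBr A S y} ⊆
        {y | y ∈ Metric.ball x ρ ∧ IsBr A S y} := fun y hy =>
      ⟨Metric.ball_subset_ball hρ.1.le hy.1, hy.2⟩
    refine (Set.encard_le_encard hsub).trans (h1.trans ?_)
    have h7 : F.card * (2 * F.card + 1) ^ 2 ≤ M * (2 * M + 1) ^ 2 :=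
      Nat.mul_le_mul hcard (Nat.pow_le_pow_left (by omega) 2)
    exact_mod_cast h7

end Pool.Agent.Helper877_Fin
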