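import Pool.Agent.Helper877_Fin.Len

set_option autoImplicit false

open scoped MeasureTheory ENNReal Topology InnerProductSpace
open MeasureTheory Set Filter
open Pool.Agent.R154.Steiner

namespace Pool.Agent.Helper877_Fin

variable {d : ℕ}

lemma sqrt_sum_le (f : Fin d → ℝ) {c : ℝ} (hc : 0 ≤ c) (h : ∀ i, |f i| ≤ c) :
    Real.sqrt (∑ i, f i ^ 2) ≤ Real.sqrt d * c := by
  apply Real.sqrt_le_iff.mpr
  refine ⟨by positivity, ?_⟩
  rw [mul_pow, Real.sq_sqrt (Nat.cast_nonneg d)]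
  calc ∑ i, f i ^ 2 ≤ ∑ _i : Fin d, c ^ 2 := by
        refine Finset.sum_le_sum fun i _ => ?_
        rw [← sq_abs]
        exact pow_le_pow_left₀ (abs_nonneg _) (h i) 2
    _ = d * c ^ 2 := by simp

lemma natCast_mul_ofReal (n : ℕ) (c : ℝ) :
    (n : ℝ≥0∞) * ENNReal.ofReal c = ENNReal.ofReal ((n : ℝ) * c) := by
  rw [ENNReal.ofReal_mul (Nat.cast_nonneg n), ENNReal.ofReal_natCast]

/-- The grid points. -/
noncomputable def gp (x : EuclideanSpace ℝ (Fin d)) (r : ℝ) (N : ℕ) (g : Fin d → Fin (2 * N + 1)) :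
    EuclideanSpace ℝ (Fin d) :=
  x + WithLp.toLp 2 (fun i => (r / N) * (((g i : ℕ) : ℝ) - N))

lemma gp_dist (x : EuclideanSpace ℝ (Fin d)) {r : ℝ} (hr : 0 < r) {N : ℕ} (hN : 0 < N)
    (g : Fin d → Fin (2 * N + 1)) : dist x (gp x r N g) ≤ Real.sqrt d * r := by
  have hNr : (0:ℝ) < N := by exact_mod_cast hN
  rw [EuclideanSpace.dist_eq]
  have h1 : ∀ i, dist (x i) (gp x r N g i) ^ 2 = ((r / N) * (((g i : ℕ) : ℝ) - N)) ^ 2 := by
    intro i
    rw [Real.dist_eq, sq_abs]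
    unfold gp
    simp
  simp only [h1]
  refine sqrt_sum_le _ hr.le fun i => ?_
  rw [abs_mul, abs_of_pos (by positivity : 0 < r / N)]
  have h2 : |((g i : ℕ) : ℝ) - N| ≤ N := by
    rw [abs_le]
    have h3 : ((g i : ℕ) : ℝ) ≤ 2 * N := by
      have := (g i).2
      have h4 : (g i : ℕ) ≤ 2 * N := by omega
      exact_mod_cast h4
    have h5 : (0:ℝ) ≤ ((g i : ℕ) : ℝ) := Nat.cast_nonneg _
    constructor <;> linarith
  calc r / N * |((g i : ℕ) : ℝ) - N| ≤ r / N * N := mul_le_mul_of_nonneg_left h2 (by positivity)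
    _ = r := div_mul_cancel₀ r hNr.ne'

lemma gp_near (x : EuclideanSpace ℝ (Fin d)) {r : ℝ} (hr : 0 < r) {N : ℕ} (hN : 0 < N)
    {y : EuclideanSpace ℝ (Fin d)} (hy : y ∈ Metric.closedBall x r) :
    ∃ g : Fin d → Fin (2 * N + 1), dist y (gp x r N g) ≤ Real.sqrt d * (r / N) := by
  have hNr : (0:ℝ) < N := by exact_mod_cast hN
  have hc : ∀ i, |y i - x i| ≤ r := by
    intro i
    rw [Metric.mem_closedBall, dist_eq_norm] at hy
    have := PiLp.norm_apply_le (y - x) i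
    rw [Real.norm_eq_abs] at this
    exact this.trans hy
  have hb : ∀ i, ⌊(y i - x i + r) * N / r⌋₊ < 2 * N + 1 := by
    intro i
    rw [Nat.lt_succ_iff]
    have h1 : (y i - x i + r) * N / r ≤ ((2 * N : ℕ) : ℝ) := by
      rw [div_le_iff₀ hr]
      push_cast
      have := (abs_le.mp (hc i)).2
      nlinarith
    calc ⌊(y i - x i + r) * N / r⌋₊ ≤ ⌊((2 * N : ℕ) : ℝ)⌋₊ := Nat.floor_le_floor h1
      _ = 2 * N := Nat.floor_natCast _
  refine ⟨fun i => ⟨⌊(y i - x i + r) * N / r⌋₊, hb i⟩, ?_⟩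
  rw [EuclideanSpace.dist_eq]
  have h1 : ∀ i, dist (y i) (gp x r N (fun i => ⟨⌊(y i - x i + r) * N / r⌋₊, hb i⟩) i) ^ 2 =
      (y i - x i + r - (r / N) * (⌊(y i - x i + r) * N / r⌋₊ : ℝ)) ^ 2 := by
    intro i
    rw [Real.dist_eq, sq_abs]
    unfold gp
    simp only [PiLp.add_apply]
    congr 1
    field_simp
    ring
  simp only [h1]
  refine sqrt_sum_le _ (by positivity) fun i => ?_
  have h2 : 0 ≤ (y i - x i + r) * N / r := by
    have := (abs_le.mp (hc i)).1
    have h3 : 0 ≤ y i - x i + r := by linarith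
    positivity
  have h3 := Nat.floor_le h2
  have h4 := Nat.lt_floor_add_one ((y i - x i + r) * N / r)
  set m : ℝ := (⌊(y i - x i + r) * N / r⌋₊ : ℝ)
  have h5 : (y i - x i + r) * N / r * (r / N) = y i - x i + r := by
    field_simp
  have h6 : 0 < r / N := by positivity
  have h7 : m * (r / N) ≤ y i - x i + r := by
    rw [← h5]; exact mul_le_mul_of_nonneg_right h3 h6.le
  have h8 : y i - x i + r ≤ (m + 1) * (r / N) := by
    rw [← h5]; exact mul_le_mul_of_nonneg_right h4.le h6.le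
  rw [abs_le]
  constructor <;> nlinarith

/-- The star of the grid points. -/
lemma exists_star (x : EuclideanSpace ℝ (Fin d)) {r : ℝ} (hr : 0 < r) {N : ℕ} (hN : 0 < N) :
    ∃ G : Set (EuclideanSpace ℝ (Fin d)), IsCompact G ∧ IsPreconnected G ∧
      μH[1] G ≤ ENNReal.ofReal (((2 * N + 1 : ℕ) : ℝ) ^ d * (Real.sqrt d * r)) ∧
      ∀ y ∈ Metric.closedBall x r, ∃ g ∈ G, dist y g ≤ Real.sqrt d * (r / N) := by
  classical
  refine ⟨⋃ g : Fin d → Fin (2 * N + 1), segment ℝ x (gp x r N g), ?_, ?_, ?_, ?_⟩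
  · refine isCompact_iUnion fun g => ?_
    rw [segment_eq_image_lineMap]
    exact isCompact_Icc.image AffineMap.lineMap_continuous
  · refine isPreconnected_iUnion ⟨x, mem_iInter.mpr fun g => left_mem_segment ℝ _ _⟩ fun g => ?_
    exact (convex_segment _ _).isPreconnected
  · refine (measure_iUnion_le _).trans ?_
    rw [tsum_fintype]
    calc ∑ g : Fin d → Fin (2 * N + 1), μH[1] (segment ℝ x (gp x r N g))
        ≤ ∑ _g : Fin d → Fin (2 * N + 1), ENNReal.ofReal (Real.sqrt d * r) := by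
          refine Finset.sum_le_sum fun g _ => ?_
          rw [hausdorffMeasure_segment, edist_dist]
          exact ENNReal.ofReal_le_ofReal (gp_dist x hr hN g)
      _ = ENNReal.ofReal (((2 * N + 1 : ℕ) : ℝ) ^ d * (Real.sqrt d * r)) := by
          rw [Finset.sum_const, Finset.card_univ, Fintype.card_fun, Fintype.card_fin,
            Fintype.card_fin, nsmul_eq_mul, natCast_mul_ofReal, Nat.cast_pow]
  · intro y hy
    obtain ⟨g, hg⟩ := gp_near x hr hN hy
    exact ⟨gp x r N g, mem_iUnion.mpr ⟨g, right_mem_segment ℝ _ _⟩, hg⟩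

/-- The basic recursion. -/
lemma rec_step {S : Set (EuclideanSpace ℝ (Fin d))} (hSc : IsClosed S)
    {x : EuclideanSpace ℝ (Fin d)} {r : ℝ} (hr : 0 < r)
    (hfin : μH[1] (S ∩ Metric.ball x r) ≠ ⊤) (hloc : LocMin S x r) {ρ ρ' : ℝ} (hρ : 0 < ρ)
    (hρρ : ρ < ρ') (hρ' : ρ' ≤ r) {N : ℕ} (hN : 0 < N) :
    (μH[1] (S ∩ Metric.ball x ρ)).toReal ≤ ((2 * N + 1 : ℕ) : ℝ) ^ d * (Real.sqrt d * r) +
      Real.sqrt d * (r / N) * ((μH[1] (S ∩ Metric.ball x ρ')).toReal / (ρ' - ρ)) := by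
  classical
  have hNr : (0:ℝ) < N := by exact_mod_cast hN
  set ℓ := (μH[1] (S ∩ Metric.ball x ρ')).toReal with hℓ
  have hℓ0 : 0 ≤ ℓ := ENNReal.toReal_nonneg
  have hfin' : μH[1] (S ∩ Metric.ball x ρ') ≠ ⊤ :=
    ne_top_of_le_ne_top hfin (measure_mono (inter_subset_inter_right _ (Metric.ball_subset_ball hρ')))
  have hm : MeasurableSet (S ∩ Metric.ball x ρ') :=
    hSc.measurableSet.inter Metric.isOpen_ball.measurableSet
  obtain ⟨σ, hσ, F, hF, hFc⟩ := exists_slice hm (f := fun y => dist y x)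
    (LipschitzWith.dist_left x) hρρ hℓ0 (by rw [hℓ, ENNReal.ofReal_toReal hfin'])
  have hFs : (F : Set (EuclideanSpace ℝ (Fin d))) = S ∩ Metric.sphere x σ := by
    rw [hF]
    ext z
    constructor
    · rintro ⟨⟨hz, _⟩, hz2⟩
      exact ⟨hz, hz2⟩
    · rintro ⟨hz, hz2⟩
      refine ⟨⟨hz, ?_⟩, hz2⟩
      rw [Metric.mem_sphere] at hz2
      rw [Metric.mem_ball, hz2]
      exact hσ.2
  have hρ'σ : 0 < ρ' - ρ := by linarith
  have hcard : (F.card : ℝ) ≤ ℓ / (ρ' - ρ) := by rwa [le_div_iff₀ hρ'σ]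
  have hsd : 0 ≤ Real.sqrt d * (r / N) := by positivity
  rcases (S ∩ Metric.ball x σ).eq_empty_or_nonempty with h0 | h0
  · have h1 : S ∩ Metric.ball x ρ = ∅ := by
      rw [eq_empty_iff_forall_notMem] at h0 ⊢
      intro z hz
      exact h0 z ⟨hz.1, Metric.ball_subset_ball hσ.1.le hz.2⟩
    rw [h1, measure_empty, ENNReal.toReal_zero]
    have : 0 ≤ ℓ / (ρ' - ρ) := by positivity
    positivity
  obtain ⟨G, hGc, hGp, hGm, hGn⟩ := exists_star x hr hN
  have hex : ∀ y : EuclideanSpace ℝ (Fin d), ∃ g, y ∈ Metric.closedBall x r →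
      g ∈ G ∧ dist y g ≤ Real.sqrt d * (r / N) := by
    intro y
    by_cases hy : y ∈ Metric.closedBall x r
    · obtain ⟨g, hg, hd⟩ := hGn y hy
      exact ⟨g, fun _ => ⟨hg, hd⟩⟩
    · exact ⟨x, fun h => absurd h hy⟩
  choose γ hγ using hex
  have hFball : ∀ y ∈ F, y ∈ Metric.closedBall x r := by
    intro y hy
    have h1 : y ∈ (F : Set (EuclideanSpace ℝ (Fin d))) := hy
    rw [hFs] at h1
    have h2 := h1.2
    rw [Metric.mem_sphere] at h2
    rw [Metric.mem_closedBall, h2]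
    linarith [hσ.2]
  have hGne : G.Nonempty := by
    obtain ⟨g, hg, _⟩ := hGn x (Metric.mem_closedBall_self hr.le)
    exact ⟨g, hg⟩
  set Q : Set (EuclideanSpace ℝ (Fin d)) := G ∪ ⋃ y ∈ F, segment ℝ y (γ y) with hQ
  have hQc : IsCompact Q := by
    refine hGc.union (F.finite_toSet.isCompact_biUnion fun y _ => ?_)
    rw [segment_eq_image_lineMap]
    exact isCompact_Icc.image AffineMap.lineMap_continuous
  obtain ⟨g0, hg0⟩ := hGne
  have hQp : IsPreconnected Q := by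
    refine isPreconnected_of_forall g0 ?_
    rintro z (hz | hz)
    · exact ⟨G, subset_union_left, hg0, hz, hGp⟩
    · obtain ⟨y, hy, hz⟩ := mem_iUnion₂.mp hz
      refine ⟨G ∪ segment ℝ y (γ y), ?_, Or.inl hg0, Or.inr hz, ?_⟩
      · refine union_subset subset_union_left (subset_trans ?_ subset_union_right)
        exact subset_biUnion_of_mem (u := fun y => segment ℝ y (γ y)) hy
      · exact IsPreconnected.union (γ y) (hγ y (hFball y hy)).1 (right_mem_segment ℝ _ _) hGp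
          (convex_segment _ _).isPreconnected
  have hQm : μH[1] Q ≤ ENNReal.ofReal (((2 * N + 1 : ℕ) : ℝ) ^ d * (Real.sqrt d * r) +
      Real.sqrt d * (r / N) * (ℓ / (ρ' - ρ))) := by
    refine (measure_union_le _ _).trans ?_
    rw [ENNReal.ofReal_add (by positivity) (mul_nonneg hsd (div_nonneg hℓ0 hρ'σ.le))]
    refine add_le_add hGm ?_
    refine (measure_biUnion_finset_le _ _).trans ?_
    calc ∑ y ∈ F, μH[1] (segment ℝ y (γ y)) ≤ ∑ _y ∈ F, ENNReal.ofReal (Real.sqrt d * (r / N)) := by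
          refine Finset.sum_le_sum fun y hy => ?_
          rw [hausdorffMeasure_segment, edist_dist]
          exact ENNReal.ofReal_le_ofReal (hγ y (hFball y hy)).2
      _ = ENNReal.ofReal (F.card * (Real.sqrt d * (r / N))) := by
          rw [Finset.sum_const, nsmul_eq_mul, natCast_mul_ofReal]
      _ ≤ ENNReal.ofReal (Real.sqrt d * (r / N) * (ℓ / (ρ' - ρ))) := by
          apply ENNReal.ofReal_le_ofReal
          rw [mul_comm]
          exact mul_le_mul_of_nonneg_left hcard hsd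
  have h1 := hloc σ (hρ.trans hσ.1) (hσ.2.trans_le hρ') Q hQc hQp (by
    rw [← hFs]
    intro y hy
    exact Or.inr (mem_iUnion₂.mpr ⟨y, hy, left_mem_segment ℝ _ _⟩)) h0
  have h2 : μH[1] (S ∩ Metric.ball x ρ) ≤ ENNReal.ofReal
      (((2 * N + 1 : ℕ) : ℝ) ^ d * (Real.sqrt d * r) +
      Real.sqrt d * (r / N) * (ℓ / (ρ' - ρ))) :=
    (measure_mono (inter_subset_inter_right _ (Metric.ball_subset_ball hσ.1.le))).trans
      (h1.trans hQm)
  have h3 := ENNReal.toReal_mono ENNReal.ofReal_ne_top h2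
  rwa [ENNReal.toReal_ofReal (add_nonneg (by positivity)
    (mul_nonneg hsd (div_nonneg hℓ0 hρ'σ.le)))] at h3

/-- The iteration. -/
lemma iterate_bound {a : ℕ → ℝ} {c θ q M : ℝ} (hc : 0 ≤ c) (hθ : 0 ≤ θ) (hθ1 : θ < 1)
    (hq : θ * q ≤ 1 / 2) (hq0 : 0 ≤ q) (hM : ∀ k, a k ≤ M)
    (h : ∀ k, a k ≤ c * q ^ k + θ * a (k + 1)) : a 0 ≤ 2 * c := by
  have h1 : ∀ k, a 0 ≤ c * (∑ j ∈ Finset.range k, (1 / 2 : ℝ) ^ j) + θ ^ k * a k := by
    intro k
    induction k with
    | zero => simp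
    | succ k ih =>
      refine ih.trans ?_
      have h2 := mul_le_mul_of_nonneg_left (h k) (pow_nonneg hθ k)
      have h3 : (θ * q) ^ k ≤ (1 / 2) ^ k := pow_le_pow_left₀ (mul_nonneg hθ hq0) hq k
      rw [Finset.sum_range_succ]
      have h4 : θ ^ k * (c * q ^ k + θ * a (k + 1)) = c * (θ * q) ^ k + θ ^ (k + 1) * a (k + 1) := by
        rw [mul_pow]; ring
      rw [h4] at h2
      have h5 : c * (θ * q) ^ k ≤ c * (1 / 2) ^ k := mul_le_mul_of_nonneg_left h3 hc
      linarith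
  have h2 : ∀ k, a 0 ≤ 2 * c + θ ^ k * |M| := by
    intro k
    refine (h1 k).trans ?_
    have h3 : ∑ j ∈ Finset.range k, (1 / 2 : ℝ) ^ j ≤ 2 := by
      have := Summable.sum_le_tsum (Finset.range k) (f := fun j => (1 / 2 : ℝ) ^ j)
        (fun j _ => by positivity) summable_geometric_two
      rwa [tsum_geometric_two] at this
    have h4 : θ ^ k * a k ≤ θ ^ k * |M| :=
      mul_le_mul_of_nonneg_left ((hM k).trans (le_abs_self M)) (pow_nonneg hθ k)
    nlinarith
  have h3 : Tendsto (fun k => 2 * c + θ ^ k * |M|) atTop (𝓝 (2 * c + 0 * |M|)) :=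
    ((tendsto_pow_atTop_nhds_zero_of_lt_one hθ hθ1).mul_const _).const_add _
  rw [zero_mul, add_zero] at h3
  exact ge_of_tendsto' h3 h2

/-- The length of `S` in the ball of radius `t r` is at most a constant times `r`. -/
theorem length_bound {S : Set (EuclideanSpace ℝ (Fin d))} (hSc : IsClosed S)
    {x : EuclideanSpace ℝ (Fin d)} {r : ℝ} (hr : 0 < r)
    (hfin : μH[1] (S ∩ Metric.ball x r) ≠ ⊤) (hloc : LocMin S x r) {t : ℝ} (ht0 : 0 < t)
    (ht1 : t < 1) {N : ℕ} (hN : 0 < N) (hNt : Real.sqrt d * 2 ^ (d + 2) ≤ N * (1 - t)) :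
    (μH[1] (S ∩ Metric.ball x (t * r))).toReal ≤
      2 * ((3 * N : ℝ) ^ d * (Real.sqrt d * r)) := by
  have hNr : (0:ℝ) < N := by exact_mod_cast hN
  have hpos : ∀ k : ℕ, (0:ℝ) < (1 / 2) ^ k := fun k => by positivity
  have hle : ∀ k : ℕ, ((1:ℝ) / 2) ^ k ≤ 1 := fun k => pow_le_one₀ (by norm_num) (by norm_num)
  let ρ : ℕ → ℝ := fun k => r * (1 - (1 - t) * (1 / 2) ^ k)
  have hρ0 : ρ 0 = t * r := by simp [ρ]; ring
  have hρpos : ∀ k, 0 < ρ k := by
    intro k
    apply mul_pos hr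
    nlinarith [hpos k, hle k]
  have hρr : ∀ k, ρ k ≤ r := by
    intro k
    have : 0 ≤ (1 - t) * (1 / 2) ^ k := mul_nonneg (by linarith) (hpos k).le
    show r * (1 - (1 - t) * (1 / 2) ^ k) ≤ r
    nlinarith
  have hstep : ∀ k, ρ (k + 1) - ρ k = r * (1 - t) * (1 / 2) ^ k / 2 := by
    intro k
    simp only [ρ, pow_succ]
    ring
  have hρlt : ∀ k, ρ k < ρ (k + 1) := by
    intro k
    have h1 := hstep k
    have : 0 < r * (1 - t) * (1 / 2) ^ k / 2 := by
      have := hpos k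
      have : 0 < 1 - t := by linarith
      positivity
    linarith
  have hmain := iterate_bound (a := fun k => (μH[1] (S ∩ Metric.ball x (ρ k))).toReal)
    (c := (3 * N : ℝ) ^ d * (Real.sqrt d * r)) (θ := (1 / 2) ^ (d + 1)) (q := 2 ^ d)
    (M := (μH[1] (S ∩ Metric.ball x r)).toReal) (by positivity) (by positivity)
    (pow_lt_one₀ (by norm_num) (by norm_num) (by omega)) (by
      rw [pow_succ, mul_assoc, mul_comm (1 / 2 : ℝ), ← mul_assoc, ← mul_pow]; norm_num)
    (by positivity) (fun k => ENNReal.toReal_mono hfin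
      (measure_mono (inter_subset_inter_right _ (Metric.ball_subset_ball (hρr k))))) (by
      intro k
      have hNk : 0 < N * 2 ^ k := by positivity
      refine (rec_step hSc hr hfin hloc (hρpos k) (hρlt k) (hρr (k + 1)) hNk).trans ?_
      refine add_le_add ?_ ?_
      · have h1 : (((2 * (N * 2 ^ k) + 1 : ℕ) : ℝ)) ≤ 3 * N * 2 ^ k := by
          have : 2 * (N * 2 ^ k) + 1 ≤ 3 * (N * 2 ^ k) := by omega
          have h2 : ((2 * (N * 2 ^ k) + 1 : ℕ) : ℝ) ≤ ((3 * (N * 2 ^ k) : ℕ) : ℝ) := by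
            exact_mod_cast this
          refine h2.trans_eq ?_
          push_cast
          ring
        have h2 : ((2 * (N * 2 ^ k) + 1 : ℕ) : ℝ) ^ d ≤ (3 * N * 2 ^ k) ^ d :=
          pow_le_pow_left₀ (Nat.cast_nonneg _) h1 d
        calc ((2 * (N * 2 ^ k) + 1 : ℕ) : ℝ) ^ d * (Real.sqrt d * r)
            ≤ (3 * N * 2 ^ k) ^ d * (Real.sqrt d * r) :=
              mul_le_mul_of_nonneg_right h2 (by positivity)
          _ = (3 * N) ^ d * (Real.sqrt d * r) * (2 ^ d) ^ k := by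
              rw [mul_pow, ← pow_mul, ← pow_mul, mul_comm k d]; ring
      · set m := (μH[1] (S ∩ Metric.ball x (ρ (k + 1)))).toReal with hm
        have hm0 : 0 ≤ m := ENNReal.toReal_nonneg
        rw [hstep k]
        have h1t : 0 < 1 - t := by linarith
        have h3 : Real.sqrt d * (r / ((N * 2 ^ k : ℕ) : ℝ)) *
            (m / (r * (1 - t) * (1 / 2) ^ k / 2)) = (Real.sqrt d * 2 / (N * (1 - t))) * m := by
          push_cast
          have : ((1:ℝ) / 2) ^ k = 1 / 2 ^ k := by rw [one_div_pow]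
          rw [this]
          field_simp
        rw [h3]
        refine mul_le_mul_of_nonneg_right ?_ hm0
        rw [div_le_iff₀ (by positivity)]
        have h4 : ((1:ℝ) / 2) ^ (d + 1) * (N * (1 - t)) ≥
            ((1:ℝ) / 2) ^ (d + 1) * (Real.sqrt d * 2 ^ (d + 2)) :=
          mul_le_mul_of_nonneg_left hNt (by positivity)
        have h5 : ((1:ℝ) / 2) ^ (d + 1) * (Real.sqrt d * 2 ^ (d + 2)) = Real.sqrt d * 2 := by
          rw [one_div_pow, pow_succ 2 (d + 1)]
          field_simp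
        linarith)
  simp only [hρ0] at hmain
  exact hmain

end Pool.Agent.Helper877_Fin
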