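import Pool.Agent.Helper877_Fin.Comp
import Pool.Agent.Helper877_Fin.Rec

set_option autoImplicit false

open scoped MeasureTheory ENNReal Topology InnerProductSpace
open MeasureTheory Set Filter
open Pool.Agent.R154.Steiner

namespace Pool.Agent.Helper877_Fin

section metric

variable {E : Type*} [MetricSpace E]

lemma isClosed_cc {K : Set E} (hK : IsClosed K) (f : E) (hf : f ∈ K) :
    IsClosed (connectedComponentIn K f) := by
  have h1 : IsPreconnected (closure (connectedComponentIn K f)) :=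
    isPreconnected_connectedComponentIn.closure
  have h2 : closure (connectedComponentIn K f) ⊆ K :=
    closure_minimal (connectedComponentIn_subset K f) hK
  have h3 : closure (connectedComponentIn K f) ⊆ connectedComponentIn K f :=
    h1.subset_connectedComponentIn (subset_closure (mem_connectedComponentIn hf)) h2
  exact isClosed_of_closure_subset h3

/-- Replacing one closed piece of a connected set. -/
lemma conn_replace' {X W C Q : Set E} (hW : IsClosed W) (hC : IsClosed C) (hXWC : X = W ∪ C)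
    (hCne : C.Nonempty) (hX : IsPreconnected X) (hQ : IsPreconnected Q) (hsub : W ∩ C ⊆ Q) :
    IsPreconnected (W ∪ Q) := by
  rw [isPreconnected_closed_iff]
  have hpc := isPreconnected_closed_iff.mp hX
  have key : ∀ U V : Set E, IsClosed U → IsClosed V → W ∪ Q ⊆ U ∪ V → Q ⊆ U →
      ((W ∪ Q) ∩ V).Nonempty → ((W ∪ Q) ∩ (U ∩ V)).Nonempty := by
    intro U V hU hV hUV hQU hV'
    by_contra hcon
    rw [not_nonempty_iff_eq_empty] at hcon
    have hno : ∀ z, z ∈ W ∪ Q → z ∈ U → z ∈ V → False := by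
      intro z h1 h2 h3
      have : z ∈ (W ∪ Q) ∩ (U ∩ V) := ⟨h1, h2, h3⟩
      rw [hcon] at this
      exact this
    obtain ⟨z, hzX, ⟨hzW, hzV⟩, hz2⟩ := hpc (W ∩ V) ((W ∩ U) ∪ C) (hW.inter hV)
      ((hW.inter hU).union hC) (by
        rw [hXWC]
        rintro z (hz | hz)
        · rcases hUV (Or.inl hz) with h | h
          · exact Or.inr (Or.inl ⟨hz, h⟩)
          · exact Or.inl ⟨hz, h⟩
        · exact Or.inr (Or.inr hz)) (by
        obtain ⟨z, hz1 | hz1, hz2⟩ := hV'
        · exact ⟨z, by rw [hXWC]; exact Or.inl hz1, hz1, hz2⟩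
        · exact (hno z (Or.inr hz1) (hQU hz1) hz2).elim) (by
        obtain ⟨z, hz⟩ := hCne
        exact ⟨z, by rw [hXWC]; exact Or.inr hz, Or.inr hz⟩)
    rcases hz2 with ⟨_, h⟩ | h
    · exact hno z (Or.inl hzW) h hzV
    · exact hno z (Or.inl hzW) (hQU (hsub ⟨hzW, h⟩)) hzV
  intro U V hU hV hUV hUn hVn
  by_cases hsU : Q ⊆ U
  · exact key U V hU hV hUV hsU hVn
  by_cases hsV : Q ⊆ V
  · have := key V U hV hU (by rwa [union_comm V U]) hsV hUn
    rwa [inter_comm V U] at this
  · obtain ⟨z, hz1, hz2⟩ := isPreconnected_closed_iff.mp hQ U V hU hV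
      (subset_union_right.trans hUV) (by
        obtain ⟨z, hz1, hz2⟩ := not_subset.mp hsV
        exact ⟨z, hz1, (hUV (Or.inr hz1)).resolve_right hz2⟩) (by
        obtain ⟨z, hz1, hz2⟩ := not_subset.mp hsU
        exact ⟨z, hz1, (hUV (Or.inr hz1)).resolve_left hz2⟩)
    exact ⟨z, Or.inr hz1, hz2⟩

variable [MeasurableSpace E] [BorelSpace E]

/-- Every point of `S` in the closed ball can be joined to the sphere inside the closed ball. -/
lemma reach_sphere {S : Set E} (hSc : IsCompact S) (hS : IsPreconnected S)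
    (hfin : μH[1] S ≠ ⊤) {x : E} {ρ : ℝ} {p z : E} (hp : p ∈ S) (hpx : dist p x ≤ ρ)
    (hz : z ∈ S) (hzx : ρ ≤ dist z x) :
    ∃ e ∈ S ∩ Metric.sphere x ρ, p ∈ connectedComponentIn (S ∩ Metric.closedBall x ρ) e := by
  obtain ⟨γ, a, b, g⟩ := exists_arc hSc hS hp hz hfin
  have hdc : Continuous fun y : E => dist y x := continuous_id.dist continuous_const
  have hfc : ContinuousOn (fun t => dist (γ t) x) (Icc a b) := hdc.comp_continuousOn g.cont
  set Z : Set ℝ := Icc a b ∩ (fun t => dist (γ t) x) ⁻¹' Ici ρ with hZ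
  have hZc : IsCompact Z := by
    have : IsClosed Z := hfc.preimage_isClosed_of_isClosed isClosed_Icc isClosed_Ici
    exact isCompact_Icc.of_isClosed_subset this inter_subset_left
  have hZne : Z.Nonempty := by
    refine ⟨b, ⟨g.le, le_rfl⟩, ?_⟩
    show ρ ≤ dist (γ b) x
    rw [g.right]; exact hzx
  obtain ⟨c, hcZ, hcmin⟩ := hZc.exists_isLeast hZne
  obtain ⟨⟨hac, hcb⟩, hcρ⟩ := hcZ
  have hcρ' : ρ ≤ dist (γ c) x := hcρ
  have hsub : Icc a c ⊆ Icc a b := Icc_subset_Icc le_rfl hcb
  have hceq : dist (γ c) x = ρ := by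
    have h1 := intermediate_value_Icc hac (hfc.mono hsub)
    have h2 : ρ ∈ Icc (dist (γ a) x) (dist (γ c) x) := ⟨by rw [g.left]; exact hpx, hcρ'⟩
    obtain ⟨t, ht, hte⟩ := h1 h2
    have h3 : c ≤ t := hcmin ⟨hsub ht, hte.ge⟩
    have h4 : t = c := le_antisymm ht.2 h3
    rw [h4] at hte
    exact hte
  have hle : ∀ t ∈ Icc a c, dist (γ t) x ≤ ρ := by
    intro t ht
    by_contra hcon
    push Not at hcon
    have h3 : c ≤ t := hcmin ⟨hsub ht, hcon.le⟩
    have h4 : t = c := le_antisymm ht.2 h3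
    rw [h4, hceq] at hcon
    exact lt_irrefl _ hcon
  refine ⟨γ c, ⟨g.maps c ⟨hac, hcb⟩, hceq⟩, ?_⟩
  have hΓ : IsPreconnected (γ '' Icc a c) := isPreconnected_Icc.image _ (g.cont.mono hsub)
  refine hΓ.subset_connectedComponentIn ⟨c, ⟨hac, le_rfl⟩, rfl⟩ ?_ ⟨a, ⟨le_rfl, hac⟩, g.left⟩
  rintro _ ⟨t, ht, rfl⟩
  exact ⟨g.maps t (hsub ht), hle t ht⟩

/-- The components of a Steiner tree inside a ball are minimal. -/
lemma comp_min {A S : Set E} (hA : IsClosed A) (hS : IsClosed S) (hScomp : IsCompact S)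
    (hSconn : IsPreconnected S) (hSA : IsPreconnected (S ∪ A)) (hfin : μH[1] S ≠ ⊤) {x : E} {r : ℝ}
    (hmin : ∀ T : Set E, IsClosed T → IsConnected (T ∪ A) → S \ Metric.ball x r ⊆ T →
      μH[1] S ≤ μH[1] T)
    (hAr : A ∩ Metric.ball x r = ∅) {ρ : ℝ} (hρr : ρ < r) {z : E} (hz : z ∈ S)
    (hzx : ρ ≤ dist z x) (F : Finset E) (hF : (F : Set E) = S ∩ Metric.sphere x ρ) {f : E}
    (hf : f ∈ F) (Q : Set E) (hQc : IsCompact Q) (hQ : IsPreconnected Q)
    (hFQ : (F : Set E) ∩ connectedComponentIn (S ∩ Metric.closedBall x ρ) f ⊆ Q) :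
    μH[1] (connectedComponentIn (S ∩ Metric.closedBall x ρ) f) ≤ μH[1] Q := by
  classical
  set K := S ∩ Metric.closedBall x ρ with hK
  have hKc : IsClosed K := hS.inter Metric.isClosed_closedBall
  have hFK : ∀ g ∈ F, g ∈ K := by
    intro g hg
    have h1 : g ∈ (F : Set E) := hg
    rw [hF] at h1
    exact ⟨h1.1, Metric.sphere_subset_closedBall h1.2⟩
  set C := connectedComponentIn K f with hC
  have hCc : IsClosed C := isClosed_cc hKc f (hFK f hf)
  have hCK : C ⊆ K := connectedComponentIn_subset K f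
  have hfC : f ∈ C := mem_connectedComponentIn (hFK f hf)
  have hAb : ∀ z ∈ A, r ≤ dist z x := by
    intro z hz
    by_contra h
    push Not at h
    have : z ∈ A ∩ Metric.ball x r := ⟨hz, h⟩
    rw [hAr] at this
    exact this
  let G : Finset E := F.filter fun g => g ∉ C
  set R : Set E := ⋃ g ∈ G, connectedComponentIn K g with hR
  have hRc : IsClosed R := by
    refine G.finite_toSet.isClosed_biUnion fun g hg => ?_
    have hg' : g ∈ F := (Finset.mem_filter.mp hg).1
    exact isClosed_cc hKc g (hFK g hg')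
  have hRC : ∀ z ∈ R, z ∉ C := by
    intro z hz hzC
    obtain ⟨g, hg, hzg⟩ := mem_iUnion₂.mp hz
    obtain ⟨hgF, hgC⟩ := Finset.mem_filter.mp hg
    have h1 := connectedComponentIn_eq hzg
    have h2 := connectedComponentIn_eq hzC
    apply hgC
    rw [hC, h2, ← h1]
    exact mem_connectedComponentIn (hFK g hgF)
  have hKCR : K ⊆ C ∪ R := by
    intro p hp
    obtain ⟨e, he, hpe⟩ := reach_sphere hScomp hSconn hfin hp.1 hp.2 hz hzx
    rw [← hF] at he
    by_cases heC : e ∈ C
    · left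
      have h1 := connectedComponentIn_eq heC
      rw [hC, h1]
      exact hpe
    · right
      exact mem_iUnion₂.mpr ⟨e, Finset.mem_filter.mpr ⟨he, heC⟩, hpe⟩
  set W : Set E := ((S ∪ A) \ Metric.ball x ρ) ∪ R with hW
  have hWc : IsClosed W := ((hS.union hA).sdiff Metric.isOpen_ball).union hRc
  have hRS : R ⊆ S := by
    intro z hz
    obtain ⟨g, hg, hzg⟩ := mem_iUnion₂.mp hz
    exact (connectedComponentIn_subset K g hzg).1
  have hXWC : S ∪ A = W ∪ C := by
    ext z
    constructor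
    · intro hz
      by_cases hzb : z ∈ Metric.ball x ρ
      · have hzS : z ∈ S := by
          rcases hz with h | h
          · exact h
          · have := hAb z h
            rw [Metric.mem_ball] at hzb
            linarith
        rcases hKCR ⟨hzS, Metric.ball_subset_closedBall hzb⟩ with h | h
        · exact Or.inr h
        · exact Or.inl (Or.inr h)
      · exact Or.inl (Or.inl ⟨hz, hzb⟩)
    · rintro ((⟨hz, _⟩ | hz) | hz)
      · exact hz
      · exact Or.inl (hRS hz)
      · exact Or.inl (hCK hz).1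
  have hWC : W ∩ C ⊆ Q := by
    rintro z ⟨hzW, hzC⟩
    rcases hzW with ⟨hz1, hz2⟩ | hzR
    · apply hFQ
      refine ⟨?_, hzC⟩
      rw [hF]
      have h1 := hCK hzC
      refine ⟨h1.1, ?_⟩
      rw [Metric.mem_sphere]
      rw [Metric.mem_ball, not_lt] at hz2
      exact le_antisymm h1.2 hz2
    · exact absurd hzC (hRC z hzR)
  have hconn := conn_replace' hWc hCc hXWC ⟨f, hfC⟩ hSA hQ hWC
  set T : Set E := ((S \ Metric.ball x ρ) ∪ R) ∪ Q with hT
  have hTA : T ∪ A = W ∪ Q := by
    ext z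
    constructor
    · rintro (((⟨hz, hzb⟩ | hz) | hz) | hz)
      · exact Or.inl (Or.inl ⟨Or.inl hz, hzb⟩)
      · exact Or.inl (Or.inr hz)
      · exact Or.inr hz
      · refine Or.inl (Or.inl ⟨Or.inr hz, fun h => ?_⟩)
        have := hAb z hz
        rw [Metric.mem_ball] at h
        linarith
    · rintro ((⟨hz | hz, hzb⟩ | hz) | hz)
      · exact Or.inl (Or.inl (Or.inl ⟨hz, hzb⟩))
      · exact Or.inr hz
      · exact Or.inl (Or.inl (Or.inr hz))
      · exact Or.inl (Or.inr hz)
  have h1 := hmin T (((hS.sdiff Metric.isOpen_ball).union hRc).union hQc.isClosed) (by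
      rw [hTA]
      exact ⟨⟨f, Or.inr (hFQ ⟨hf, hfC⟩)⟩, hconn⟩) (by
      intro z hz
      refine Or.inl (Or.inl ⟨hz.1, fun h => hz.2 (Metric.ball_subset_ball hρr.le h)⟩))
  have h2 : μH[1] ((S \ Metric.ball x ρ) ∪ R) ≤ μH[1] (S \ C) := by
    have h3 : (S \ Metric.ball x ρ) ∪ R ⊆ (S \ C) ∪ (F : Set E) := by
      rintro z (⟨hz, hzb⟩ | hz)
      · by_cases hzC : z ∈ C
        · right
          rw [hF]
          have h1 := hCK hzC
          refine ⟨h1.1, ?_⟩
          rw [Metric.mem_sphere]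
          rw [Metric.mem_ball, not_lt] at hzb
          exact le_antisymm h1.2 hzb
        · exact Or.inl ⟨hz, hzC⟩
      · exact Or.inl ⟨hRS hz, hRC z hz⟩
    have h4 : μH[1] (F : Set E) = 0 := by
      rw [← biUnion_of_singleton (F : Set E)]
      exact (measure_biUnion_null_iff F.finite_toSet.countable).mpr fun g _ => noAtom g
    calc μH[1] ((S \ Metric.ball x ρ) ∪ R) ≤ μH[1] ((S \ C) ∪ (F : Set E)) := measure_mono h3
      _ ≤ μH[1] (S \ C) + μH[1] (F : Set E) := measure_union_le _ _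
      _ = μH[1] (S \ C) := by rw [h4, add_zero]
  have h5 : μH[1] S = μH[1] (S ∩ C) + μH[1] (S \ C) :=
    (measure_inter_add_sdiff S hCc.measurableSet).symm
  have h6 : S ∩ C = C := inter_eq_right.mpr fun z hz => (hCK hz).1
  rw [h6] at h5
  have h7 : μH[1] C + μH[1] (S \ C) ≤ μH[1] (S \ C) + μH[1] Q := by
    rw [← h5]
    exact h1.trans ((measure_union_le _ _).trans (add_le_add h2 le_rfl))
  rw [add_comm] at h7
  refine (ENNReal.add_le_add_iff_left ?_).mp h7
  exact ne_top_of_le_ne_top hfin (measure_mono sdiff_subset)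

/-- Local minimality, from minimality among the sets that agree with `S` outside the ball. -/
lemma locMin_of_set' {A S : Set E} (hA : IsClosed A) (hS : IsClosed S)
    (hSA : IsPreconnected (S ∪ A)) (hfin : μH[1] S ≠ ⊤) {x : E} {r : ℝ}
    (hmin : ∀ T : Set E, IsClosed T → IsConnected (T ∪ A) → S \ Metric.ball x r ⊆ T →
      μH[1] S ≤ μH[1] T)
    (hAr : A ∩ Metric.ball x r = ∅) : LocMin S x r := by
  intro ρ hρ hρr Q hQc hQ hsub hne
  have hAb : ∀ z ∈ A, r ≤ dist z x := by
    intro z hz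
    by_contra h
    push Not at h
    have : z ∈ A ∩ Metric.ball x r := ⟨hz, h⟩
    rw [hAr] at this
    exact this
  have h1 : IsPreconnected (((S ∪ A) \ Metric.ball x ρ) ∪ Q) := by
    refine conn_replace (hS.union hA) hSA hQ ?_ ?_
    · rintro z ⟨hz | hz, hzs⟩
      · exact hsub ⟨hz, hzs⟩
      · have := hAb z hz
        rw [Metric.mem_sphere] at hzs
        linarith
    · exact hne.mono (inter_subset_inter_left _ subset_union_left)
  have h2 : ((S ∪ A) \ Metric.ball x ρ) ∪ Q = ((S \ Metric.ball x ρ) ∪ Q) ∪ A := by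
    ext z
    constructor
    · rintro (⟨hz | hz, hzb⟩ | hz)
      · exact Or.inl (Or.inl ⟨hz, hzb⟩)
      · exact Or.inr hz
      · exact Or.inl (Or.inr hz)
    · rintro ((⟨hz, hzb⟩ | hz) | hz)
      · exact Or.inl ⟨Or.inl hz, hzb⟩
      · exact Or.inr hz
      · refine Or.inl ⟨Or.inr hz, fun h => ?_⟩
        have := hAb z hz
        rw [Metric.mem_ball] at h
        linarith
  rw [h2] at h1
  by_cases hne' : (((S \ Metric.ball x ρ) ∪ Q) ∪ A).Nonempty
  · have h3 := hmin ((S \ Metric.ball x ρ) ∪ Q)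
      ((hS.sdiff Metric.isOpen_ball).union hQc.isClosed) ⟨hne', h1⟩ (by
        intro z hz
        exact Or.inl ⟨hz.1, fun h => hz.2 (Metric.ball_subset_ball hρr.le h)⟩)
    have hsplit : μH[1] S = μH[1] (S ∩ Metric.ball x ρ) + μH[1] (S \ Metric.ball x ρ) :=
      (measure_inter_add_sdiff S Metric.isOpen_ball.measurableSet).symm
    have h4 := h3.trans (measure_union_le _ _)
    rw [hsplit, add_comm] at h4
    refine (ENNReal.add_le_add_iff_left ?_).mp h4
    exact ne_top_of_le_ne_top hfin (measure_mono sdiff_subset)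
  · rw [not_nonempty_iff_eq_empty] at hne'
    have hA0 : A = ∅ := by
      rw [eq_empty_iff_forall_notMem]
      intro z hz
      have : z ∈ ((S \ Metric.ball x ρ) ∪ Q) ∪ A := Or.inr hz
      rw [hne'] at this
      exact this
    obtain ⟨z, hz, hzb⟩ := hne
    have h3 := hmin {z} isClosed_singleton (by rw [hA0, union_empty]; exact isConnected_singleton)
      (by
        intro w hw
        exfalso
        have : w ∈ ((S \ Metric.ball x ρ) ∪ Q) ∪ A :=
          Or.inl (Or.inl ⟨hw.1, fun h => hw.2 (Metric.ball_subset_ball hρr.le h)⟩)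
        rw [hne'] at this
        exact this)
    rw [noAtom] at h3
    calc μH[1] (S ∩ Metric.ball x ρ) ≤ μH[1] S := measure_mono inter_subset_left
      _ ≤ 0 := h3
      _ ≤ _ := zero_le

end metric

end Pool.Agent.Helper877_Fin
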