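import Pool.Agent.Helper877_Fin.Sys

set_option autoImplicit false

open scoped MeasureTheory ENNReal Topology InnerProductSpace
open MeasureTheory Set Filter
open Pool.Agent.R154.Steiner

namespace Pool.Agent.Helper877_Fin

section min2

variable {E : Type*} [NormedAddCommGroup E] [InnerProductSpace ℝ E] [MeasurableSpace E]
  [BorelSpace E]

/-- A continuum of minimal length through finitely many points is a finite union of segments;
version for a given system of arcs. -/
theorem sys_structure {C : Set E} (hCc : IsCompact C) (hC : IsPreconnected C)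
    (hfin : μH[1] C ≠ ⊤) (F : Finset E)
    (hmin : ∀ C' : Set E, IsCompact C' → IsPreconnected C' → (F : Set E) ⊆ C' → μH[1] C ≤ μH[1] C')
    {κ : Type} [Fintype κ] (hκne : Nonempty κ) (S : ArcSys C κ) (hconn : Conn S.pos)
    (hpos : ∀ f ∈ F, ∃ σ, S.pos σ = f) :
    C = (⋃ k, S.γ k '' Icc (S.a k) (S.b k)) ∧
      ∀ k, S.γ k '' Icc (S.a k) (S.b k) = segment ℝ (S.pos (k, false)) (S.pos (k, true)) := by
  classical
  let I : κ → Set E := fun k => S.γ k '' Icc (S.a k) (S.b k)
  have hIc : ∀ k, IsCompact (I k) := fun k => isCompact_Icc.image_of_continuousOn (S.arc k).cont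
  have hIsub : ∀ k, I k ⊆ C := by
    rintro k _ ⟨t, ht, rfl⟩
    exact (S.arc k).maps t ht
  have h1 : ∀ k, ENNReal.ofReal (dist (S.pos (k, false)) (S.pos (k, true))) ≤ μH[1] (I k) := by
    intro k
    refine H_conn (isPreconnected_Icc.image _ (S.arc k).cont) ?_ ?_
    · exact ⟨S.a k, ⟨le_rfl, (S.arc k).le⟩, rfl⟩
    · exact ⟨S.b k, ⟨(S.arc k).le, le_rfl⟩, rfl⟩
  have hsumI : ∑ k, μH[1] (I k) = μH[1] (⋃ k, I k) := by
    have := measure_iUnion₀ (μ := (μH[1] : Measure E)) (f := I)
      (fun i j hij => S.null i j hij) (fun i => (hIc i).measurableSet.nullMeasurableSet)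
    rw [tsum_fintype] at this
    exact this.symm
  have hUC : μH[1] (⋃ k, I k) ≤ μH[1] C := measure_mono (iUnion_subset hIsub)
  have hCb : μH[1] C ≤ μH[1] (bod S.pos) := by
    refine hmin _ (bod_compact _) (bod_preconnected hconn) ?_
    intro f hf
    obtain ⟨σ, h2⟩ := hpos f hf
    rw [← h2]
    exact mem_bod _ σ
  have hbd : μH[1] (bod S.pos) ≤
      ∑ k, ENNReal.ofReal (dist (S.pos (k, false)) (S.pos (k, true))) := by
    refine (measure_iUnion_le _).trans ?_
    rw [tsum_fintype]
    refine Finset.sum_le_sum fun k _ => ?_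
    rw [hausdorffMeasure_segment, edist_dist]
  have hle : ∑ k, μH[1] (I k) ≤
      ∑ k, ENNReal.ofReal (dist (S.pos (k, false)) (S.pos (k, true))) := by
    rw [hsumI]; exact hUC.trans (hCb.trans hbd)
  have hIfin : ∀ k, μH[1] (I k) ≠ ⊤ := fun k => ne_top_of_le_ne_top hfin (measure_mono (hIsub k))
  have heq : ∀ k, μH[1] (I k) ≤ ENNReal.ofReal (dist (S.pos (k, false)) (S.pos (k, true))) := by
    intro k
    by_contra hcon
    push Not at hcon
    have hlt : ∑ k, ENNReal.ofReal (dist (S.pos (k, false)) (S.pos (k, true))) <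
        ∑ k, μH[1] (I k) := by
      rw [← Finset.add_sum_erase Finset.univ _ (Finset.mem_univ k),
        ← Finset.add_sum_erase Finset.univ (fun k => μH[1] (I k)) (Finset.mem_univ k)]
      have hrest : ∑ l ∈ Finset.univ.erase k, μH[1] (I l) ≠ ⊤ :=
        ENNReal.sum_ne_top.mpr fun l _ => hIfin l
      refine lt_of_le_of_lt (add_le_add le_rfl (Finset.sum_le_sum fun l _ => h1 l)) ?_
      exact (ENNReal.add_lt_add_iff_right hrest).mpr hcon
    exact absurd hle (not_le.mpr hlt)
  have hseg : ∀ k, I k = segment ℝ (S.pos (k, false)) (S.pos (k, true)) := fun k =>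
    arc_segment (S.arc k) (heq k)
  have hCU : C = ⋃ k, I k := by
    apply Subset.antisymm _ (iUnion_subset hIsub)
    intro z hz
    by_contra hzn
    have hcl : IsClosed (⋃ k, I k) := (isCompact_iUnion hIc).isClosed
    have hUm : μH[1] (⋃ k, I k) = μH[1] C := by
      refine le_antisymm hUC ?_
      rw [← hsumI]
      refine hCb.trans (hbd.trans ?_)
      exact Finset.sum_le_sum fun k _ => h1 k
    have hnull : μH[1] (C \ ⋃ k, I k) = 0 := by
      rw [measure_sdiff (iUnion_subset hIsub) hcl.measurableSet.nullMeasurableSet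
        (by rw [hUm]; exact hfin), hUm, tsub_self]
    obtain ⟨ε, hε, hball⟩ := Metric.isOpen_iff.mp hcl.isOpen_compl z hzn
    obtain ⟨k0⟩ := hκne
    have hw : S.pos (k0, false) ∈ ⋃ k, I k :=
      mem_iUnion.mpr ⟨k0, ⟨S.a k0, ⟨le_rfl, (S.arc k0).le⟩, rfl⟩⟩
    have hwd : ε ≤ dist z (S.pos (k0, false)) := by
      by_contra hcon
      push Not at hcon
      have : S.pos (k0, false) ∈ Metric.ball z ε := by
        rw [Metric.mem_ball, dist_comm]; exact hcon
      exact hball this hw
    have h5 := H_ball hC hz (iUnion_subset hIsub hw) hwd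
    have h6 : μH[1] (C ∩ Metric.ball z ε) ≤ 0 := by
      rw [← hnull]
      exact measure_mono fun w hw => ⟨hw.1, hball hw.2⟩
    have h7 := h5.trans h6
    rw [nonpos_iff_eq_zero, ENNReal.ofReal_eq_zero] at h7
    linarith
  exact ⟨hCU, hseg⟩

/-- A continuum of minimal length through `n ≥ 2` points is the union of `2 n - 3` segments that
meet in at most `n - 2` points. -/
theorem minimal_structure2 {C : Set E} (hCc : IsCompact C) (hC : IsPreconnected C)
    (hfin : μH[1] C ≠ ⊤) (F : Finset E) (hF : (F : Set E) ⊆ C) (h2 : 2 ≤ F.card)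
    (hmin : ∀ C' : Set E, IsCompact C' → IsPreconnected C' → (F : Set E) ⊆ C' → μH[1] C ≤ μH[1] C') :
    ∃ (κ : Type) (_ : Fintype κ) (I : κ → Set E) (p q : κ → E) (Q : Finset E),
      Fintype.card κ + 3 = 2 * F.card ∧ Q.card + 2 ≤ F.card ∧
      C = ⋃ k, I k ∧ (∀ k, I k = segment ℝ (p k) (q k)) ∧ ∀ k l, k ≠ l → I k ∩ I l ⊆ (Q : Set E) := by
  classical
  obtain ⟨x0, hx0⟩ : F.Nonempty := Finset.card_pos.mp (by omega)
  have hcE : (F.erase x0).card = F.card - 1 := Finset.card_erase_of_mem hx0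
  obtain ⟨κ, hκ, S, Q, hcard, hQ, hconn, hσ0, hpos, hint⟩ := exists_sys2 hCc hC hfin (hF hx0)
    (F.erase x0) (fun y hy => hF (Finset.mem_of_mem_erase hy))
    (Finset.card_pos.mp (by omega))
  have hne : Nonempty κ := by
    rw [← Fintype.card_pos_iff]; omega
  have hpos' : ∀ f ∈ F, ∃ σ, S.pos σ = f := by
    intro f hf
    by_cases h : f = x0
    · rw [h]; exact hσ0
    · exact hpos f (Finset.mem_erase.mpr ⟨h, hf⟩)
  obtain ⟨h3, h4⟩ := sys_structure hCc hC hfin F hmin hne S hconn hpos'
  exact ⟨κ, hκ, fun k => S.γ k '' Icc (S.a k) (S.b k), fun k => S.pos (k, false),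
    fun k => S.pos (k, true), Q, by omega, by omega, h3, h4, hint⟩

/-- The branching points in one component. -/
lemma br_comp2 {A S : Set E} {x : E} {ρ : ℝ} {C L : Set E} {κ : Type} [Fintype κ] {I : κ → Set E}
    {p q : κ → E} (hC : C = ⋃ k, I k) (hI : ∀ k, I k = segment ℝ (p k) (q k))
    {Q : Finset E} (hint : ∀ k l, k ≠ l → I k ∩ I l ⊆ (Q : Set E)) (hLc : IsClosed L)
    (hLC : ∀ z ∈ L, z ∉ C) (hcov : S ∩ Metric.closedBall x ρ ⊆ C ∪ L) :
    {y | y ∈ Metric.ball x ρ ∧ y ∈ C ∧ IsBr A S y}.encard ≤ ((Q.card : ℕ) : ℕ∞) := by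
  classical
  have hIc : ∀ k, IsClosed (I k) := by
    intro k
    rw [hI k, segment_eq_image_lineMap]
    exact (isCompact_Icc.image AffineMap.lineMap_continuous).isClosed
  have htwo : ∀ y, y ∈ Metric.ball x ρ ∧ y ∈ C ∧ IsBr A S y →
      ∃ kl : κ × κ, kl.1 ≠ kl.2 ∧ y ∈ I kl.1 ∧ y ∈ I kl.2 := by
    rintro y ⟨hyb, hyC, ⟨_, _⟩, η, hη, D, hD3, hD1, hSD⟩
    by_contra hcon
    push Not at hcon
    have hyC' := hyC
    rw [hC] at hyC'
    obtain ⟨k, hk⟩ := mem_iUnion.mp hyC'
    set L' : Set E := L ∪ ⋃ l ∈ Finset.univ.erase k, I l with hL'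
    have hL'c : IsClosed L' := by
      refine hLc.union ((Finset.finite_toSet _).isClosed_biUnion fun l _ => hIc l)
    have hyL' : y ∉ L' := by
      rintro (h | h)
      · exact hLC y h hyC
      · obtain ⟨l, hl, hyl⟩ := mem_iUnion₂.mp h
        exact hcon (k, l) (Finset.ne_of_mem_erase hl).symm hk hyl
    obtain ⟨ε, hε, hball⟩ := Metric.isOpen_iff.mp (hL'c.isOpen_compl.inter
      Metric.isOpen_ball) y ⟨hyL', hyb⟩
    set δ := min (ε / 2) (η / 2) with hδ
    have hδ0 : 0 < δ := lt_min (by positivity) (by positivity)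
    have hcard := dirs_le_two hδ0 D hD1 (a := p k) (b := q k) (p := y) (by rw [← hI k]; exact hk)
      (by
        intro u hu
        have hd : dist (y + δ • u) y = δ := by
          rw [dist_eq_norm, add_sub_cancel_left, norm_smul, hD1 u hu, mul_one,
            Real.norm_of_nonneg hδ0.le]
        have h1 : y + δ • u ∈ Metric.ball y η := by
          rw [Metric.mem_ball, hd]
          exact lt_of_le_of_lt (min_le_right _ _) (by linarith)
        have h2 : y + δ • u ∈ S ∩ Metric.ball y η := by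
          rw [hSD]
          exact ⟨⟨u, hu, δ, hδ0.le, rfl⟩, h1⟩
        have h3 : y + δ • u ∈ Metric.ball y ε := by
          rw [Metric.mem_ball, hd]
          exact lt_of_le_of_lt (min_le_left _ _) (by linarith)
        obtain ⟨h4, h5⟩ := hball h3
        rcases hcov ⟨h2.1, Metric.ball_subset_closedBall h5⟩ with h6 | h6
        · rw [hC] at h6
          obtain ⟨l, hl⟩ := mem_iUnion.mp h6
          by_cases hlk : l = k
          · subst hlk
            rw [← hI l]
            exact hl
          · exfalso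
            exact h4 (Or.inr (mem_iUnion₂.mpr ⟨l, Finset.mem_erase.mpr ⟨hlk, Finset.mem_univ l⟩, hl⟩))
        · exact absurd (Or.inl h6) h4)
    omega
  have hsub : {y | y ∈ Metric.ball x ρ ∧ y ∈ C ∧ IsBr A S y} ⊆ (Q : Set E) := by
    intro y hy
    obtain ⟨kl, h1, h2, h3⟩ := htwo y hy
    exact hint kl.1 kl.2 h1 ⟨h2, h3⟩
  refine (Set.encard_le_encard hsub).trans ?_
  rw [Set.encard_coe_eq_coe_finsetCard]

lemma encard_biUnion_le2 {X : Type*} {ι : Type*} (F : Finset ι) (B : ι → Set X) (m : ι → ℕ)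
    (h : ∀ f ∈ F, (B f).encard ≤ ((m f : ℕ) : ℕ∞)) :
    (⋃ f ∈ F, B f).encard ≤ ((∑ f ∈ F, m f : ℕ) : ℕ∞) := by
  classical
  induction F using Finset.induction_on with
  | empty => simp
  | insert a F ha ih =>
    rw [Finset.set_biUnion_insert, Finset.sum_insert ha, Nat.cast_add]
    refine (Set.encard_union_le _ _).trans (add_le_add (h a (Finset.mem_insert_self a F)) ?_)
    exact ih fun f hf => h f (Finset.mem_insert_of_mem hf)

lemma sum_sub_two {ι : Type*} (F : Finset ι) (a : ι → ℕ) :
    ∑ f ∈ F, (a f - 2) ≤ (∑ f ∈ F, a f) - 2 := by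
  classical
  induction F using Finset.induction_on with
  | empty => simp
  | insert x F hx ih =>
    rw [Finset.sum_insert hx, Finset.sum_insert hx]
    omega

/-- The number of branching points inside a ball whose boundary sphere meets the tree in `n`
points is at most `n - 2`. -/
theorem br_count2 {A S : Set E} (hA : IsClosed A) (hS : IsClosed S) (hScomp : IsCompact S)
    (hSconn : IsPreconnected S) (hSA : IsPreconnected (S ∪ A)) (hfin : μH[1] S ≠ ⊤) {x : E} {r : ℝ}
    (hmin : ∀ T : Set E, IsClosed T → IsConnected (T ∪ A) → S \ Metric.ball x r ⊆ T →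
      μH[1] S ≤ μH[1] T)
    (hAr : A ∩ Metric.ball x r = ∅) {ρ : ℝ} (hρr : ρ < r) {z : E} (hz : z ∈ S)
    (hzx : ρ ≤ dist z x) (F : Finset E) (hF : (F : Set E) = S ∩ Metric.sphere x ρ) :
    {y | y ∈ Metric.ball x ρ ∧ IsBr A S y}.encard ≤ ((F.card - 2 : ℕ) : ℕ∞) := by
  classical
  set K := S ∩ Metric.closedBall x ρ with hK
  have hKc : IsClosed K := hS.inter Metric.isClosed_closedBall
  have hFK : ∀ g ∈ F, g ∈ K := by
    intro g hg
    have h1 : g ∈ (F : Set E) := hg
    rw [hF] at h1
    exact ⟨h1.1, Metric.sphere_subset_closedBall h1.2⟩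
  have hreach : ∀ p ∈ K, ∃ e ∈ F, p ∈ connectedComponentIn K e := by
    intro p hp
    obtain ⟨e, he, hpe⟩ := reach_sphere hScomp hSconn hfin hp.1 hp.2 hz hzx
    rw [← hF] at he
    exact ⟨e, he, hpe⟩
  let comps : Finset (Set E) := F.image fun f => connectedComponentIn K f
  have hsub : {y | y ∈ Metric.ball x ρ ∧ IsBr A S y} ⊆
      ⋃ C ∈ comps, {y | y ∈ Metric.ball x ρ ∧ y ∈ C ∧ IsBr A S y} := by
    rintro y ⟨hyb, hy⟩
    obtain ⟨e, he, hye⟩ := hreach y ⟨hy.1.1, Metric.ball_subset_closedBall hyb⟩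
    exact mem_iUnion₂.mpr ⟨connectedComponentIn K e, Finset.mem_image_of_mem _ he, hyb, hye, hy⟩
  refine (Set.encard_le_encard hsub).trans ?_
  have hcomp : ∀ C ∈ comps, {y | y ∈ Metric.ball x ρ ∧ y ∈ C ∧ IsBr A S y}.encard ≤
      (((F.filter fun g => g ∈ C).card - 2 : ℕ) : ℕ∞) := by
    intro C hCm
    obtain ⟨f, hf, hCf⟩ := Finset.mem_image.mp hCm
    have hCc : IsClosed C := by rw [← hCf]; exact isClosed_cc hKc f (hFK f hf)
    have hCK : C ⊆ K := by rw [← hCf]; exact connectedComponentIn_subset K f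
    have hCS : C ⊆ S := fun z hz => (hCK hz).1
    have hfC : f ∈ C := by rw [← hCf]; exact mem_connectedComponentIn (hFK f hf)
    have hCp : IsPreconnected C := by rw [← hCf]; exact isPreconnected_connectedComponentIn
    have hCfin : μH[1] C ≠ ⊤ := ne_top_of_le_ne_top hfin (measure_mono hCS)
    set F' : Finset E := F.filter fun g => g ∈ C with hF'
    have hF'C : (F' : Set E) ⊆ C := by
      intro g hg
      exact (Finset.mem_filter.mp hg).2
    have hfF' : f ∈ F' := Finset.mem_filter.mpr ⟨hf, hfC⟩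
    have hCmin : ∀ C' : Set E, IsCompact C' → IsPreconnected C' → (F' : Set E) ⊆ C' →
        μH[1] C ≤ μH[1] C' := by
      intro C' hC'c hC' hFC'
      rw [← hCf]
      refine comp_min hA hS hScomp hSconn hSA hfin hmin hAr hρr hz hzx F hF hf C' hC'c hC' ?_
      rintro g ⟨hg1, hg2⟩
      refine hFC' (Finset.mem_filter.mpr ⟨hg1, ?_⟩)
      rw [← hCf]; exact hg2
    have hCcomp : IsCompact C := hScomp.of_isClosed_subset hCc hCS
    let G : Finset E := F.filter fun g => g ∉ C
    set R : Set E := ⋃ g ∈ G, connectedComponentIn K g with hR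
    have hRc : IsClosed R := by
      refine G.finite_toSet.isClosed_biUnion fun g hg => ?_
      have hg' : g ∈ F := (Finset.mem_filter.mp hg).1
      exact isClosed_cc hKc g (hFK g hg')
    have hRC : ∀ z ∈ R, z ∉ C := by
      intro z hz hzC
      obtain ⟨g, hg, hzg⟩ := mem_iUnion₂.mp hz
      obtain ⟨hgF, hgC⟩ := Finset.mem_filter.mp hg
      have h1 := connectedComponentIn_eq hzg
      rw [← hCf] at hzC
      have h2 := connectedComponentIn_eq hzC
      apply hgC
      rw [← hCf, h2, ← h1]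
      exact mem_connectedComponentIn (hFK g hgF)
    have hKCR : K ⊆ C ∪ R := by
      intro p hp
      obtain ⟨e, he, hpe⟩ := hreach p hp
      by_cases heC : e ∈ C
      · left
        have heC' := heC
        rw [← hCf] at heC'
        have h1 := connectedComponentIn_eq heC'
        rw [← hCf, h1]
        exact hpe
      · right
        exact mem_iUnion₂.mpr ⟨e, Finset.mem_filter.mpr ⟨he, heC⟩, hpe⟩
    rcases Nat.lt_or_ge F'.card 2 with h2 | h2
    · -- the component is a single point
      have hF'1 : F' = {f} := by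
        have h3 := Finset.card_le_one.mp (show F'.card ≤ 1 by omega)
        exact Finset.eq_singleton_iff_unique_mem.mpr ⟨hfF', fun g hg => h3 g hg f hfF'⟩
      have h3 : μH[1] C ≤ μH[1] ({f} : Set E) := by
        refine hCmin {f} isCompact_singleton isPreconnected_singleton ?_
        rw [hF'1]; simp
      rw [noAtom] at h3
      have hempty : {y | y ∈ Metric.ball x ρ ∧ y ∈ C ∧ IsBr A S y} = ∅ := by
        rw [eq_empty_iff_forall_notMem]
        rintro y ⟨hyb, hyC, _⟩
        have h4 := (H_conn hCp hyC hfC).trans h3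
        rw [nonpos_iff_eq_zero, ENNReal.ofReal_eq_zero] at h4
        have h5 : y = f := dist_le_zero.mp h4
        have h6 : f ∈ (F : Set E) := hf
        rw [hF] at h6
        rw [h5, Metric.mem_ball] at hyb
        have h7 := h6.2
        rw [Metric.mem_sphere] at h7
        linarith
      rw [hempty, Set.encard_empty]
      exact zero_le
    · obtain ⟨κ, hκ, I, p, q, Q, _, hQ, hCI, hI, hint⟩ := minimal_structure2 hCcomp hCp hCfin F'
        hF'C h2 hCmin
      have h1 := br_comp2 (A := A) (S := S) (x := x) (ρ := ρ) hCI hI hint hRc hRC hKCR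
      refine h1.trans ?_
      have h3 : Q.card ≤ F'.card - 2 := by omega
      exact_mod_cast h3
  refine (encard_biUnion_le2 comps _ _ hcomp).trans ?_
  have h1 := sum_sub_two comps fun C => (F.filter fun g => g ∈ C).card
  have h2 : ∑ C ∈ comps, (F.filter fun g => g ∈ C).card = F.card := by
    rw [Finset.card_eq_sum_card_image (fun f => connectedComponentIn K f) F]
    refine Finset.sum_congr rfl fun C hC => ?_
    obtain ⟨f, hf, hCf⟩ := Finset.mem_image.mp hC
    congr 1
    ext g
    simp only [Finset.mem_filter]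
    constructor
    · rintro ⟨hg, hgC⟩
      refine ⟨hg, ?_⟩
      rw [← hCf] at hgC ⊢
      exact (connectedComponentIn_eq hgC).symm
    · rintro ⟨hg, hgC⟩
      refine ⟨hg, ?_⟩
      rw [← hgC]
      exact mem_connectedComponentIn (hFK g hg)
  rw [h2] at h1
  exact_mod_cast h1

end min2

end Pool.Agent.Helper877_Fin
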