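import Pool.Agent.Helper877_Fin.Len

set_option autoImplicit false

open scoped MeasureTheory ENNReal Topology InnerProductSpace
open MeasureTheory Set Filter
open Pool.Agent.R154.Steiner

namespace Pool.Agent.Helper877_Fin

section net

variable {E : Type*} [NormedAddCommGroup E] [InnerProductSpace ℝ E]

/-- The union of the segments of a network. -/
def bod {κ : Type} (y : κ × Bool → E) : Set E := ⋃ k, segment ℝ (y (k, false)) (y (k, true))

lemma mem_bod {κ : Type} (y : κ × Bool → E) (σ : κ × Bool) : y σ ∈ bod y := by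
  obtain ⟨k, β⟩ := σ
  refine mem_iUnion.mpr ⟨k, ?_⟩
  cases β
  · exact left_mem_segment ℝ _ _
  · exact right_mem_segment ℝ _ _

lemma joined_bod {κ : Type} {y : κ × Bool → E} (hy : Conn y) (σ τ : κ × Bool) :
    JoinedIn (bod y) (y σ) (y τ) := by
  have hseg : ∀ k, JoinedIn (bod y) (y (k, false)) (y (k, true)) := fun k =>
    JoinedIn.of_segment_subset (subset_iUnion (fun k => segment ℝ (y (k, false)) (y (k, true))) k)
  have h := hy σ τ
  induction h with
  | rel σ τ h =>
    rcases h with h | h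
    · rw [h]; exact JoinedIn.refl (mem_bod y τ)
    · obtain ⟨k, β⟩ := σ
      obtain ⟨l, β'⟩ := τ
      simp only at h
      subst h
      cases β <;> cases β'
      · exact JoinedIn.refl (mem_bod y _)
      · exact hseg k
      · exact (hseg k).symm
      · exact JoinedIn.refl (mem_bod y _)
  | refl σ => exact JoinedIn.refl (mem_bod y _)
  | symm σ τ _ ih => exact ih.symm
  | trans σ τ υ _ _ ih1 ih2 => exact ih1.trans ih2

lemma bod_preconnected {κ : Type} {y : κ × Bool → E} (hy : Conn y) : IsPreconnected (bod y) := by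
  rcases (bod y).eq_empty_or_nonempty with h | ⟨z0, hz0⟩
  · rw [h]; exact isPreconnected_empty
  obtain ⟨k0, hk0⟩ := mem_iUnion.mp hz0
  have hpc : IsPathConnected (bod y) := by
    refine ⟨y (k0, false), mem_bod y _, ?_⟩
    intro z hz
    obtain ⟨k, hk⟩ := mem_iUnion.mp hz
    refine (joined_bod hy (k0, false) (k, false)).trans (JoinedIn.of_segment_subset ?_)
    exact ((convex_segment _ _).segment_subset (left_mem_segment ℝ _ _) hk).trans
      (subset_iUnion (fun k => segment ℝ (y (k, false)) (y (k, true))) k)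
  exact hpc.isConnected.isPreconnected

lemma bod_compact {κ : Type} [Finite κ] (y : κ × Bool → E) : IsCompact (bod y) := by
  refine isCompact_iUnion fun k => ?_
  rw [segment_eq_image_lineMap]
  exact isCompact_Icc.image AffineMap.lineMap_continuous

/-- A connected subset of a segment that contains both ends is the segment. -/
lemma eq_segment {I : Set E} (hI : IsPreconnected I) {p q : E} (hp : p ∈ I) (hq : q ∈ I)
    (hsub : I ⊆ segment ℝ p q) : I = segment ℝ p q := by
  apply Subset.antisymm hsub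
  by_cases hpq : p = q
  · subst hpq
    rw [segment_same]
    exact singleton_subset_iff.mpr hp
  have hn : 0 < ‖q - p‖ ^ 2 := by
    have : 0 < ‖q - p‖ := norm_pos_iff.mpr (sub_ne_zero.mpr (Ne.symm hpq))
    positivity
  let f : E → ℝ := fun z => ⟪z - p, q - p⟫_ℝ
  have hf : Continuous f := by fun_prop
  have hfp : f p = 0 := by simp [f]
  have hfq : f q = ‖q - p‖ ^ 2 := by simp only [f]; exact real_inner_self_eq_norm_sq _
  have hfs : ∀ t : ℝ, f (p + t • (q - p)) = t * ‖q - p‖ ^ 2 := by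
    intro t
    simp only [f, add_sub_cancel_left, real_inner_smul_left, real_inner_self_eq_norm_sq]
  intro z hz
  rw [segment_eq_image'] at hz
  obtain ⟨t, ht, rfl⟩ := hz
  have h1 : t * ‖q - p‖ ^ 2 ∈ f '' I := by
    apply hI.intermediate_value hp hq hf.continuousOn
    rw [hfp, hfq]
    exact ⟨mul_nonneg ht.1 hn.le, by nlinarith [ht.2]⟩
  obtain ⟨w, hw, hfw⟩ := h1
  have hws := hsub hw
  rw [segment_eq_image'] at hws
  obtain ⟨t', ht', rfl⟩ := hws
  rw [hfs] at hfw
  have : t' = t := mul_right_cancel₀ hn.ne' hfw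
  rw [← this]
  exact hw

end net

section min

variable {E : Type*} [NormedAddCommGroup E] [InnerProductSpace ℝ E] [MeasurableSpace E]
  [BorelSpace E]

/-- An arc that is not longer than the distance of its ends is a segment. -/
lemma arc_segment {T : Set E} {x y : E} {γ : ℝ → E} {a b : ℝ} (h : IsArc T x y γ a b)
    (hle : μH[1] (γ '' Icc a b) ≤ ENNReal.ofReal (dist x y)) : γ '' Icc a b = segment ℝ x y := by
  have hconn : IsPreconnected (γ '' Icc a b) := isPreconnected_Icc.image _ h.cont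
  refine eq_segment hconn ⟨a, ⟨le_rfl, h.le⟩, h.left⟩ ⟨b, ⟨h.le, le_rfl⟩, h.right⟩ ?_
  rintro _ ⟨c, hc, rfl⟩
  have h1 := h.sub le_rfl hc.1 hc.2
  have h2 := h.sub hc.1 hc.2 le_rfl
  have m1 : ENNReal.ofReal (dist (γ a) (γ c)) ≤ μH[1] (γ '' Icc a c) :=
    H_conn (isPreconnected_Icc.image _ h1.cont) ⟨a, ⟨le_rfl, hc.1⟩, rfl⟩ ⟨c, ⟨hc.1, le_rfl⟩, rfl⟩
  have m2 : ENNReal.ofReal (dist (γ c) (γ b)) ≤ μH[1] (γ '' Icc c b) :=
    H_conn (isPreconnected_Icc.image _ h2.cont) ⟨c, ⟨le_rfl, hc.2⟩, rfl⟩ ⟨b, ⟨hc.2, le_rfl⟩, rfl⟩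
  have hnull : μH[1] (γ '' Icc a c ∩ γ '' Icc c b) = 0 := by
    refine measure_mono_null ?_ (noAtom (γ c))
    rintro z ⟨⟨t, ht, rfl⟩, ⟨u, hu, hut⟩⟩
    have : u = t := h.inj ⟨hc.1.trans hu.1, hu.2⟩ ⟨ht.1, ht.2.trans hc.2⟩ hut
    have h2 : t = c := le_antisymm ht.2 (this ▸ hu.1)
    rw [h2]; rfl
  have hunion : γ '' Icc a b = γ '' Icc a c ∪ γ '' Icc c b := by
    rw [← image_union, Icc_union_Icc_eq_Icc hc.1 hc.2]
  have hm : μH[1] (γ '' Icc a c ∪ γ '' Icc c b) = μH[1] (γ '' Icc a c) + μH[1] (γ '' Icc c b) := by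
    refine measure_union₀ ?_ hnull
    exact (isCompact_Icc.image_of_continuousOn h2.cont).measurableSet.nullMeasurableSet
  have h3 : ENNReal.ofReal (dist (γ a) (γ c) + dist (γ c) (γ b)) ≤
      ENNReal.ofReal (dist x y) := by
    rw [ENNReal.ofReal_add dist_nonneg dist_nonneg]
    refine (add_le_add m1 m2).trans ?_
    rw [← hm, ← hunion]
    exact hle
  rw [ENNReal.ofReal_le_ofReal_iff dist_nonneg] at h3
  rw [h.left, h.right] at h3
  have h4 : dist x (γ c) + dist (γ c) y = dist x y := le_antisymm h3 (dist_triangle _ _ _)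
  exact mem_segment_iff_wbtw.mpr (dist_add_dist_eq_iff.mp h4)

/-- A continuum of minimal length through finitely many points is a finite union of segments
that meet pairwise in null sets. -/
theorem minimal_structure {C : Set E} (hCc : IsCompact C) (hC : IsPreconnected C)
    (hfin : μH[1] C ≠ ⊤) (F : Finset E) (hF : (F : Set E) ⊆ C) (hne : C.Nonempty)
    (hmin : ∀ C' : Set E, IsCompact C' → IsPreconnected C' → (F : Set E) ⊆ C' → μH[1] C ≤ μH[1] C') :
    ∃ (κ : Type) (_ : Fintype κ) (I : κ → Set E) (p q : κ → E), Fintype.card κ = 2 * F.card + 1 ∧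
      C = ⋃ k, I k ∧ (∀ k, I k = segment ℝ (p k) (q k)) ∧ ∀ k l, k ≠ l → μH[1] (I k ∩ I l) = 0 := by
  classical
  obtain ⟨x0, hx0⟩ := hne
  obtain ⟨κ, hκ, S, hcard, hconn, hpos⟩ := exists_sys hCc hC hfin F.attach
    (fun i : {x // x ∈ F} => (i : E)) (fun i => hF i.2) x0 hx0
  rw [Finset.card_attach] at hcard
  let I : κ → Set E := fun k => S.γ k '' Icc (S.a k) (S.b k)
  have hIc : ∀ k, IsCompact (I k) := fun k => isCompact_Icc.image_of_continuousOn (S.arc k).cont
  have hIsub : ∀ k, I k ⊆ C := by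
    rintro k _ ⟨t, ht, rfl⟩
    exact (S.arc k).maps t ht
  have h1 : ∀ k, ENNReal.ofReal (dist (S.pos (k, false)) (S.pos (k, true))) ≤ μH[1] (I k) := by
    intro k
    refine H_conn (isPreconnected_Icc.image _ (S.arc k).cont) ?_ ?_
    · exact ⟨S.a k, ⟨le_rfl, (S.arc k).le⟩, rfl⟩
    · exact ⟨S.b k, ⟨(S.arc k).le, le_rfl⟩, rfl⟩
  have hsumI : ∑ k, μH[1] (I k) = μH[1] (⋃ k, I k) := by
    have := measure_iUnion₀ (μ := (μH[1] : Measure E)) (f := I)
      (fun i j hij => S.null i j hij) (fun i => (hIc i).measurableSet.nullMeasurableSet)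
    rw [tsum_fintype] at this
    exact this.symm
  have hUC : μH[1] (⋃ k, I k) ≤ μH[1] C := measure_mono (iUnion_subset hIsub)
  have hCb : μH[1] C ≤ μH[1] (bod S.pos) := by
    refine hmin _ (bod_compact _) (bod_preconnected hconn) ?_
    intro f hf
    obtain ⟨σ, hσ⟩ := hpos ⟨f, hf⟩ (Finset.mem_attach _ _)
    have h2 : S.pos σ = f := hσ
    rw [← h2]
    exact mem_bod _ σ
  have hbd : μH[1] (bod S.pos) ≤
      ∑ k, ENNReal.ofReal (dist (S.pos (k, false)) (S.pos (k, true))) := by
    refine (measure_iUnion_le _).trans ?_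
    rw [tsum_fintype]
    refine Finset.sum_le_sum fun k _ => ?_
    rw [hausdorffMeasure_segment, edist_dist]
  have hle : ∑ k, μH[1] (I k) ≤
      ∑ k, ENNReal.ofReal (dist (S.pos (k, false)) (S.pos (k, true))) := by
    rw [hsumI]; exact hUC.trans (hCb.trans hbd)
  have hIfin : ∀ k, μH[1] (I k) ≠ ⊤ := fun k => ne_top_of_le_ne_top hfin (measure_mono (hIsub k))
  have heq : ∀ k, μH[1] (I k) ≤ ENNReal.ofReal (dist (S.pos (k, false)) (S.pos (k, true))) := by
    intro k
    by_contra hcon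
    push Not at hcon
    have hlt : ∑ k, ENNReal.ofReal (dist (S.pos (k, false)) (S.pos (k, true))) <
        ∑ k, μH[1] (I k) := by
      rw [← Finset.add_sum_erase Finset.univ _ (Finset.mem_univ k),
        ← Finset.add_sum_erase Finset.univ (fun k => μH[1] (I k)) (Finset.mem_univ k)]
      have hrest : ∑ l ∈ Finset.univ.erase k, μH[1] (I l) ≠ ⊤ :=
        ENNReal.sum_ne_top.mpr fun l _ => hIfin l
      refine lt_of_le_of_lt (add_le_add le_rfl (Finset.sum_le_sum fun l _ => h1 l)) ?_
      exact (ENNReal.add_lt_add_iff_right hrest).mpr hcon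
    exact absurd hle (not_le.mpr hlt)
  have hseg : ∀ k, I k = segment ℝ (S.pos (k, false)) (S.pos (k, true)) := fun k =>
    arc_segment (S.arc k) (heq k)
  have hCU : C = ⋃ k, I k := by
    apply Subset.antisymm _ (iUnion_subset hIsub)
    intro z hz
    by_contra hzn
    have hcl : IsClosed (⋃ k, I k) := (isCompact_iUnion hIc).isClosed
    have hUm : μH[1] (⋃ k, I k) = μH[1] C := by
      refine le_antisymm hUC ?_
      rw [← hsumI]
      refine hCb.trans (hbd.trans ?_)
      exact Finset.sum_le_sum fun k _ => h1 k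
    have hnull : μH[1] (C \ ⋃ k, I k) = 0 := by
      rw [measure_sdiff (iUnion_subset hIsub) hcl.measurableSet.nullMeasurableSet
        (by rw [hUm]; exact hfin), hUm, tsub_self]
    obtain ⟨ε, hε, hball⟩ := Metric.isOpen_iff.mp hcl.isOpen_compl z hzn
    have hκne : Nonempty κ := by
      rw [← Fintype.card_pos_iff, hcard]; omega
    obtain ⟨k0⟩ := hκne
    have hw : S.pos (k0, false) ∈ ⋃ k, I k :=
      mem_iUnion.mpr ⟨k0, ⟨S.a k0, ⟨le_rfl, (S.arc k0).le⟩, rfl⟩⟩
    have hwd : ε ≤ dist z (S.pos (k0, false)) := by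
      by_contra hcon
      push Not at hcon
      have : S.pos (k0, false) ∈ Metric.ball z ε := by
        rw [Metric.mem_ball, dist_comm]; exact hcon
      exact hball this hw
    have h5 := H_ball hC hz (iUnion_subset hIsub hw) hwd
    have h6 : μH[1] (C ∩ Metric.ball z ε) ≤ 0 := by
      rw [← hnull]
      exact measure_mono fun w hw => ⟨hw.1, hball hw.2⟩
    have h7 := h5.trans h6
    rw [nonpos_iff_eq_zero, ENNReal.ofReal_eq_zero] at h7
    linarith
  exact ⟨κ, hκ, I, fun k => S.pos (k, false), fun k => S.pos (k, true), hcard, hCU, hseg,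
    fun k l hkl => S.null k l hkl⟩

end min

end Pool.Agent.Helper877_Fin
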