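import Pool.Agent.Helper877_Fin.Rec

set_option autoImplicit false

open scoped MeasureTheory ENNReal Topology InnerProductSpace
open MeasureTheory Set Filter
open Pool.Agent.R154.Steiner

namespace Pool.Agent.Helper877_Fin

section proj

variable {E : Type*} [NormedAddCommGroup E] [InnerProductSpace ℝ E]

/-- The projection onto the closed ball of radius `σ` around `x`. -/
noncomputable def pr (x : E) (σ : ℝ) (y : E) : E := x + σ • proj (σ⁻¹ • (y - x))

lemma pr_lip (x : E) {σ : ℝ} (hσ : 0 < σ) (y z : E) : dist (pr x σ y) (pr x σ z) ≤ dist y z := by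
  unfold pr
  rw [dist_add_left, dist_smul₀, Real.norm_of_nonneg hσ.le]
  have h1 := proj_lip (σ⁻¹ • (y - x)) (σ⁻¹ • (z - x))
  rw [dist_smul₀, dist_sub_right, norm_inv, Real.norm_of_nonneg hσ.le] at h1
  calc σ * dist (proj (σ⁻¹ • (y - x))) (proj (σ⁻¹ • (z - x))) ≤ σ * (σ⁻¹ * dist y z) :=
        mul_le_mul_of_nonneg_left h1 hσ.le
    _ = dist y z := by rw [← mul_assoc, mul_inv_cancel₀ hσ.ne', one_mul]

lemma pr_ray (x : E) {σ : ℝ} (hσ : 0 < σ) {y : E} (hy : dist y x = σ) {c : ℝ} (hc : 1 ≤ c) :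
    pr x σ (x + c • (y - x)) = y := by
  have hn : ‖y - x‖ = σ := by rw [← dist_eq_norm]; exact hy
  have h1 : σ⁻¹ • ((x + c • (y - x)) - x) = (σ⁻¹ * c) • (y - x) := by
    rw [add_sub_cancel_left, smul_smul]
  have hc0 : 0 < c := by linarith
  have h2 : ‖(σ⁻¹ * c) • (y - x)‖ = c := by
    rw [norm_smul, hn, Real.norm_of_nonneg (by positivity)]
    field_simp
  unfold pr
  rw [h1]
  rcases eq_or_lt_of_le hc with h | h
  · rw [proj_of_le (by rw [h2, ← h]), smul_smul, ← h, mul_one, mul_inv_cancel₀ hσ.ne', one_smul]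
    abel
  · have h3 : ¬ ‖(σ⁻¹ * c) • (y - x)‖ ≤ 1 := by rw [h2]; exact not_le.mpr h
    unfold proj
    rw [if_neg h3, h2, smul_smul, smul_smul]
    have h4 : σ * c⁻¹ * (σ⁻¹ * c) = 1 := by field_simp
    rw [h4, one_smul]
    abel

end proj

variable {d : ℕ}

lemma gp_near' (x : EuclideanSpace ℝ (Fin d)) {r : ℝ} (hr : 0 < r) {N : ℕ} (hN : 0 < N)
    {y : EuclideanSpace ℝ (Fin d)} (hc : ∀ i, |y i - x i| ≤ r) :
    ∃ g : Fin d → Fin (2 * N + 1), dist y (gp x r N g) ≤ Real.sqrt d * (r / N) ∧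
      ∀ i, |y i - x i| = r → ((g i : ℕ) = 0 ∨ (g i : ℕ) = 2 * N) := by
  have hNr : (0:ℝ) < N := by exact_mod_cast hN
  have hb : ∀ i, ⌊(y i - x i + r) * N / r⌋₊ < 2 * N + 1 := by
    intro i
    rw [Nat.lt_succ_iff]
    have h1 : (y i - x i + r) * N / r ≤ ((2 * N : ℕ) : ℝ) := by
      rw [div_le_iff₀ hr]
      push_cast
      have := (abs_le.mp (hc i)).2
      nlinarith
    calc ⌊(y i - x i + r) * N / r⌋₊ ≤ ⌊((2 * N : ℕ) : ℝ)⌋₊ := Nat.floor_le_floor h1
      _ = 2 * N := Nat.floor_natCast _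
  refine ⟨fun i => ⟨⌊(y i - x i + r) * N / r⌋₊, hb i⟩, ?_, ?_⟩
  · rw [EuclideanSpace.dist_eq]
    have h1 : ∀ i, dist (y i) (gp x r N (fun i => ⟨⌊(y i - x i + r) * N / r⌋₊, hb i⟩) i) ^ 2 =
        (y i - x i + r - (r / N) * (⌊(y i - x i + r) * N / r⌋₊ : ℝ)) ^ 2 := by
      intro i
      rw [Real.dist_eq, sq_abs]
      unfold gp
      simp only [PiLp.add_apply]
      congr 1
      field_simp
      ring
    simp only [h1]
    refine sqrt_sum_le _ (by positivity) fun i => ?_
    have h2 : 0 ≤ (y i - x i + r) * N / r := by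
      have := (abs_le.mp (hc i)).1
      have h3 : 0 ≤ y i - x i + r := by linarith
      positivity
    have h3 := Nat.floor_le h2
    have h4 := Nat.lt_floor_add_one ((y i - x i + r) * N / r)
    set m : ℝ := (⌊(y i - x i + r) * N / r⌋₊ : ℝ)
    have h5 : (y i - x i + r) * N / r * (r / N) = y i - x i + r := by
      field_simp
    have h6 : 0 < r / N := by positivity
    have h7 : m * (r / N) ≤ y i - x i + r := by
      rw [← h5]; exact mul_le_mul_of_nonneg_right h3 h6.le
    have h8 : y i - x i + r ≤ (m + 1) * (r / N) := by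
      rw [← h5]; exact mul_le_mul_of_nonneg_right h4.le h6.le
    rw [abs_le]
    constructor <;> nlinarith
  · intro i hi
    show ⌊(y i - x i + r) * N / r⌋₊ = 0 ∨ ⌊(y i - x i + r) * N / r⌋₊ = 2 * N
    rcases (abs_eq hr.le).mp hi with h | h
    · right
      have : (y i - x i + r) * N / r = ((2 * N : ℕ) : ℝ) := by
        rw [h]; push_cast; field_simp; ring
      rw [this, Nat.floor_natCast]
    · left
      have : (y i - x i + r) * N / r = 0 := by
        rw [h]; simp
      rw [this, Nat.floor_zero]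

/-- The indices of the grid points on the boundary of the cube. -/
noncomputable def BB (d N : ℕ) : Finset (Fin d → Fin (2 * N + 1)) := by
  classical
  exact Finset.univ.filter fun g => ∃ i, (g i : ℕ) = 0 ∨ (g i : ℕ) = 2 * N

lemma mem_BB {N : ℕ} (g : Fin d → Fin (2 * N + 1)) :
    g ∈ BB d N ↔ ∃ i, (g i : ℕ) = 0 ∨ (g i : ℕ) = 2 * N := by
  unfold BB; simp

lemma card_fix {m : ℕ} (i : Fin d) (c : Fin m) :
    (Finset.univ.filter fun g : Fin d → Fin m => g i = c).card ≤ m ^ (d - 1) := by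
  classical
  have h : (Finset.univ.filter fun g : Fin d → Fin m => g i = c) =
      Fintype.piFinset (fun j => if j = i then {c} else Finset.univ) := by
    ext g
    simp only [Finset.mem_filter, Finset.mem_univ, true_and, Fintype.mem_piFinset]
    constructor
    · intro h j
      by_cases hj : j = i
      · subst hj; simp [h]
      · simp [hj]
    · intro h
      have := h i
      simpa using this
  rw [h, Fintype.card_piFinset, ← Finset.mul_prod_erase Finset.univ _ (Finset.mem_univ i)]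
  have h2 : ∏ j ∈ Finset.univ.erase i, (if j = i then ({c} : Finset (Fin m)) else
      Finset.univ).card = ∏ _j ∈ Finset.univ.erase i, m := by
    refine Finset.prod_congr rfl fun j hj => ?_
    rw [if_neg (Finset.ne_of_mem_erase hj), Finset.card_univ, Fintype.card_fin]
  rw [h2, Finset.prod_const, Finset.card_erase_of_mem (Finset.mem_univ i), Finset.card_univ,
    Fintype.card_fin]
  simp

lemma card_BB (N : ℕ) : (BB d N).card ≤ 2 * d * (2 * N + 1) ^ (d - 1) := by
  classical
  have hsub : BB d N ⊆ (Finset.univ : Finset (Fin d)).biUnion fun i =>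
      (Finset.univ.filter fun g : Fin d → Fin (2 * N + 1) => g i = 0) ∪
      (Finset.univ.filter fun g : Fin d → Fin (2 * N + 1) => g i = Fin.last (2 * N)) := by
    intro g hg
    rw [mem_BB] at hg
    obtain ⟨i, hi⟩ := hg
    rw [Finset.mem_biUnion]
    refine ⟨i, Finset.mem_univ i, ?_⟩
    rw [Finset.mem_union, Finset.mem_filter, Finset.mem_filter]
    rcases hi with h | h
    · left
      refine ⟨Finset.mem_univ _, ?_⟩
      apply Fin.ext
      simpa using h
    · right
      refine ⟨Finset.mem_univ _, ?_⟩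
      apply Fin.ext
      simpa using h
  refine (Finset.card_le_card hsub).trans (Finset.card_biUnion_le.trans ?_)
  calc ∑ i : Fin d, ((Finset.univ.filter fun g : Fin d → Fin (2 * N + 1) => g i = 0) ∪
      (Finset.univ.filter fun g : Fin d → Fin (2 * N + 1) => g i = Fin.last (2 * N))).card
      ≤ ∑ _i : Fin d, 2 * (2 * N + 1) ^ (d - 1) := by
        refine Finset.sum_le_sum fun i _ => ?_
        refine (Finset.card_union_le _ _).trans ?_
        have h1 := card_fix i (0 : Fin (2 * N + 1))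
        have h2 := card_fix i (Fin.last (2 * N))
        omega
    _ = 2 * d * (2 * N + 1) ^ (d - 1) := by simp; ring

lemma gp_coord (x : EuclideanSpace ℝ (Fin d)) {r : ℝ} (hr : 0 < r) {N : ℕ} (hN : 0 < N)
    (g : Fin d → Fin (2 * N + 1)) (i : Fin d) : |gp x r N g i - x i| ≤ r ∧
      (((g i : ℕ) = 0 ∨ (g i : ℕ) = 2 * N) → |gp x r N g i - x i| = r) := by
  have hNr : (0:ℝ) < N := by exact_mod_cast hN
  have h0 : gp x r N g i - x i = (r / N) * (((g i : ℕ) : ℝ) - N) := by
    unfold gp; simp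
  rw [h0, abs_mul, abs_of_pos (by positivity : 0 < r / N)]
  constructor
  · have h2 : |((g i : ℕ) : ℝ) - N| ≤ N := by
      rw [abs_le]
      have h3 : ((g i : ℕ) : ℝ) ≤ 2 * N := by
        have := (g i).2
        have h4 : (g i : ℕ) ≤ 2 * N := by omega
        exact_mod_cast h4
      have h5 : (0:ℝ) ≤ ((g i : ℕ) : ℝ) := Nat.cast_nonneg _
      constructor <;> linarith
    calc r / N * |((g i : ℕ) : ℝ) - N| ≤ r / N * N := mul_le_mul_of_nonneg_left h2 (by positivity)
      _ = r := div_mul_cancel₀ r hNr.ne'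
  · intro h
    have h2 : |((g i : ℕ) : ℝ) - N| = N := by
      rcases h with h | h
      · rw [h]; simp
      · rw [h]; push_cast
        rw [show (2 * (N:ℝ) - N) = N by ring, abs_of_pos hNr]
    rw [h2, div_mul_cancel₀ r hNr.ne']

/-- The constant for the net on the sphere. -/
noncomputable def Cd (d : ℕ) : ℝ := 3 ^ d + 2 * d * Real.sqrt d * 5 ^ (d - 1)

/-- The net on the sphere of radius `r` at level `J`. -/
lemma exists_net_sphere (hd : 3 ≤ d) (x : EuclideanSpace ℝ (Fin d)) {r : ℝ} (hr : 0 < r) (J : ℕ) :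
    ∃ G : Set (EuclideanSpace ℝ (Fin d)), IsCompact G ∧ IsPreconnected G ∧
      (∀ g ∈ BB d (2 ^ J), pr x r (gp x r (2 ^ J) g) ∈ G) ∧
      μH[1] G ≤ ENNReal.ofReal (3 ^ d * r + 2 * d * Real.sqrt d * 5 ^ (d - 1) * r *
        ∑ j ∈ Finset.range J, (2 ^ (d - 2) : ℝ) ^ j) := by
  classical
  induction J with
  | zero =>
    refine ⟨⋃ g ∈ BB d (2 ^ 0), segment ℝ x (pr x r (gp x r (2 ^ 0) g)), ?_, ?_, ?_, ?_⟩
    · refine (Finset.finite_toSet _).isCompact_biUnion fun g _ => ?_
      rw [segment_eq_image_lineMap]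
      exact isCompact_Icc.image AffineMap.lineMap_continuous
    · refine isPreconnected_of_forall x ?_
      intro z hz
      obtain ⟨g, hg, hz⟩ := mem_iUnion₂.mp hz
      exact ⟨_, subset_biUnion_of_mem (u := fun g => segment ℝ x (pr x r (gp x r (2 ^ 0) g))) hg,
        left_mem_segment ℝ _ _, hz, (convex_segment _ _).isPreconnected⟩
    · intro g hg
      exact mem_iUnion₂.mpr ⟨g, hg, right_mem_segment ℝ _ _⟩
    · refine (measure_biUnion_finset_le _ _).trans ?_
      calc ∑ g ∈ BB d (2 ^ 0), μH[1] (segment ℝ x (pr x r (gp x r (2 ^ 0) g)))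
          ≤ ∑ _g ∈ BB d (2 ^ 0), ENNReal.ofReal r := by
            refine Finset.sum_le_sum fun g _ => ?_
            rw [hausdorffMeasure_segment, edist_dist]
            apply ENNReal.ofReal_le_ofReal
            unfold pr
            rw [dist_self_add_right, norm_smul, Real.norm_of_nonneg hr.le]
            exact mul_le_of_le_one_right hr.le (norm_proj_le _)
        _ = ENNReal.ofReal ((BB d (2 ^ 0)).card * r) := by
            rw [Finset.sum_const, nsmul_eq_mul, natCast_mul_ofReal]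
        _ ≤ _ := by
            apply ENNReal.ofReal_le_ofReal
            have h1 : (BB d (2 ^ 0)).card ≤ 3 ^ d := by
              refine (Finset.card_le_univ _).trans_eq ?_
              simp [Fintype.card_fun]
            have h2 : ((BB d (2 ^ 0)).card : ℝ) ≤ 3 ^ d := by exact_mod_cast h1
            simp only [Finset.range_zero, Finset.sum_empty, mul_zero, add_zero]
            exact mul_le_mul_of_nonneg_right h2 hr.le
  | succ J ih =>
    obtain ⟨G, hGc, hGp, hGg, hGm⟩ := ih
    have hN : 0 < 2 ^ (J + 1) := by positivity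
    have hN' : 0 < 2 ^ J := by positivity
    have hpar : ∀ g : Fin d → Fin (2 * 2 ^ (J + 1) + 1), ∃ g' : Fin d → Fin (2 * 2 ^ J + 1),
        g ∈ BB d (2 ^ (J + 1)) → g' ∈ BB d (2 ^ J) ∧
        dist (gp x r (2 ^ (J + 1)) g) (gp x r (2 ^ J) g') ≤ Real.sqrt d * (r / 2 ^ J) := by
      intro g
      obtain ⟨g', h1, h2⟩ := gp_near' x hr hN' (y := gp x r (2 ^ (J + 1)) g)
        (fun i => (gp_coord x hr hN g i).1)
      refine ⟨g', fun hg => ⟨?_, by simpa using h1⟩⟩
      rw [mem_BB] at hg ⊢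
      obtain ⟨i, hi⟩ := hg
      exact ⟨i, h2 i ((gp_coord x hr hN g i).2 hi)⟩
    choose par hpar using hpar
    have hsegm : ∀ g ∈ BB d (2 ^ (J + 1)), μH[1] (segment ℝ (pr x r (gp x r (2 ^ (J + 1)) g))
        (pr x r (gp x r (2 ^ J) (par g)))) ≤ ENNReal.ofReal (Real.sqrt d * (r / 2 ^ J)) := by
      intro g hg
      rw [hausdorffMeasure_segment, edist_dist]
      exact ENNReal.ofReal_le_ofReal ((pr_lip x hr _ _).trans (hpar g hg).2)
    obtain ⟨g0, hg0⟩ : (BB d (2 ^ J)).Nonempty := by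
      refine ⟨fun _ => 0, ?_⟩
      rw [mem_BB]
      exact ⟨⟨0, by omega⟩, Or.inl rfl⟩
    refine ⟨G ∪ ⋃ g ∈ BB d (2 ^ (J + 1)), segment ℝ (pr x r (gp x r (2 ^ (J + 1)) g))
      (pr x r (gp x r (2 ^ J) (par g))), ?_, ?_, ?_, ?_⟩
    · refine hGc.union ((Finset.finite_toSet _).isCompact_biUnion fun g _ => ?_)
      rw [segment_eq_image_lineMap]
      exact isCompact_Icc.image AffineMap.lineMap_continuous
    · refine isPreconnected_of_forall (pr x r (gp x r (2 ^ J) g0)) ?_
      rintro z (hz | hz)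
      · exact ⟨G, subset_union_left, hGg g0 hg0, hz, hGp⟩
      · obtain ⟨g, hg, hz⟩ := mem_iUnion₂.mp hz
        refine ⟨G ∪ segment ℝ (pr x r (gp x r (2 ^ (J + 1)) g))
          (pr x r (gp x r (2 ^ J) (par g))), ?_, Or.inl (hGg g0 hg0), Or.inr hz, ?_⟩
        · refine union_subset subset_union_left (subset_trans ?_ subset_union_right)
          exact subset_biUnion_of_mem (u := fun g => segment ℝ (pr x r (gp x r (2 ^ (J + 1)) g))
            (pr x r (gp x r (2 ^ J) (par g)))) hg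
        · exact IsPreconnected.union (pr x r (gp x r (2 ^ J) (par g))) (hGg _ (hpar g hg).1)
            (right_mem_segment ℝ _ _) hGp (convex_segment _ _).isPreconnected
    · intro g hg
      exact Or.inr (mem_iUnion₂.mpr ⟨g, hg, left_mem_segment ℝ _ _⟩)
    · refine (measure_union_le _ _).trans ?_
      have hsum : μH[1] (⋃ g ∈ BB d (2 ^ (J + 1)), segment ℝ (pr x r (gp x r (2 ^ (J + 1)) g))
          (pr x r (gp x r (2 ^ J) (par g)))) ≤
          ENNReal.ofReal (2 * d * Real.sqrt d * 5 ^ (d - 1) * r * (2 ^ (d - 2) : ℝ) ^ J) := by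
        refine (measure_biUnion_finset_le _ _).trans ((Finset.sum_le_sum hsegm).trans ?_)
        rw [Finset.sum_const, nsmul_eq_mul, natCast_mul_ofReal]
        apply ENNReal.ofReal_le_ofReal
        have h1 : (BB d (2 ^ (J + 1))).card ≤ 2 * d * (5 * 2 ^ J) ^ (d - 1) := by
          refine (card_BB _).trans ?_
          refine Nat.mul_le_mul_left _ (Nat.pow_le_pow_left ?_ _)
          have : 0 < 2 ^ J := by positivity
          rw [pow_succ]
          omega
        have h2 : ((BB d (2 ^ (J + 1))).card : ℝ) ≤ 2 * d * (5 * 2 ^ J) ^ (d - 1) := by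
          exact_mod_cast h1
        have h3 : (0:ℝ) ≤ Real.sqrt d * (r / 2 ^ J) := by positivity
        refine (mul_le_mul_of_nonneg_right h2 h3).trans_eq ?_
        obtain ⟨n, rfl⟩ : ∃ n, d = n + 2 := ⟨d - 2, by omega⟩
        have h4 : n + 2 - 1 = n + 1 := by omega
        have h5 : n + 2 - 2 = n := by omega
        rw [h4, h5, mul_pow, ← pow_mul, ← pow_mul]
        have h6 : (2:ℝ) ^ (J * (n + 1)) = 2 ^ (n * J) * 2 ^ J := by
          rw [← pow_add]; congr 1; ring
        rw [h6]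
        field_simp
      calc μH[1] G + _ ≤ _ := add_le_add hGm hsum
        _ = _ := by
            rw [← ENNReal.ofReal_add (by positivity) (by positivity), Finset.sum_range_succ]
            congr 1
            ring

/-- A net on the sphere. -/
lemma exists_sph (hd : 3 ≤ d) (x : EuclideanSpace ℝ (Fin d)) {r : ℝ} (hr : 0 < r) (J : ℕ) :
    ∃ G : Set (EuclideanSpace ℝ (Fin d)), IsCompact G ∧ IsPreconnected G ∧ G.Nonempty ∧
      μH[1] G ≤ ENNReal.ofReal (Cd d * (2 ^ (d - 2) : ℝ) ^ J * r) ∧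
      ∀ y ∈ Metric.sphere x r, ∃ g ∈ G, dist y g ≤ Real.sqrt d * (r / 2 ^ J) := by
  obtain ⟨G, hGc, hGp, hGg, hGm⟩ := exists_net_sphere hd x hr J
  have hN : 0 < 2 ^ J := by positivity
  have hq : (2:ℝ) ≤ 2 ^ (d - 2) := by
    calc (2:ℝ) = 2 ^ 1 := by norm_num
      _ ≤ 2 ^ (d - 2) := pow_le_pow_right₀ (by norm_num) (by omega)
  refine ⟨G, hGc, hGp, ?_, hGm.trans (ENNReal.ofReal_le_ofReal ?_), ?_⟩
  · refine ⟨_, hGg (fun _ => 0) ?_⟩
    rw [mem_BB]
    exact ⟨⟨0, by omega⟩, Or.inl rfl⟩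
  · have h1 : ∑ j ∈ Finset.range J, (2 ^ (d - 2) : ℝ) ^ j ≤ (2 ^ (d - 2) : ℝ) ^ J := by
      generalize (2 ^ (d - 2) : ℝ) = q at hq
      induction J with
      | zero => simp
      | succ J ih =>
        have hq0 : 0 ≤ q ^ J := by positivity
        have h2 : ∀ J, ∑ j ∈ Finset.range J, q ^ j ≤ q ^ J := by
          intro J
          induction J with
          | zero => simp
          | succ J ih =>
            have hq0 : 0 ≤ q ^ J := by positivity
            rw [Finset.sum_range_succ, pow_succ]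
            nlinarith
        exact h2 (J + 1)
    have h2 : (1:ℝ) ≤ (2 ^ (d - 2) : ℝ) ^ J := one_le_pow₀ (by linarith)
    have h3 : (0:ℝ) ≤ 2 * d * Real.sqrt d * 5 ^ (d - 1) * r := by positivity
    have h4 := mul_le_mul_of_nonneg_left h1 h3
    have h5 : (0:ℝ) ≤ 3 ^ d * r := by positivity
    have h6 := mul_le_mul_of_nonneg_left h2 h5
    unfold Cd
    nlinarith
  · intro y hy
    rw [Metric.mem_sphere] at hy
    -- the largest coordinate
    haveI : Nonempty (Fin d) := ⟨⟨0, by omega⟩⟩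
    obtain ⟨i0, _, hi0⟩ := Finset.exists_max_image Finset.univ (fun i => |y i - x i|)
      Finset.univ_nonempty
    set m := |y i0 - x i0| with hm
    have hmpos : 0 < m := by
      by_contra hcon
      push Not at hcon
      have h0 : ∀ i, y i = x i := by
        intro i
        have h1 := (hi0 i (Finset.mem_univ i)).trans hcon
        have h2 : |y i - x i| = 0 := le_antisymm h1 (abs_nonneg _)
        exact sub_eq_zero.mp (abs_eq_zero.mp h2)
      have h1 : y = x := by ext i; exact h0 i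
      rw [h1, dist_self] at hy
      linarith
    have hmr : m ≤ r := by
      have := PiLp.norm_apply_le (y - x) i0
      rw [Real.norm_eq_abs, ← dist_eq_norm, hy] at this
      exact this
    have hc : 1 ≤ r / m := by rw [le_div_iff₀ hmpos]; linarith
    have hcoord : ∀ i, |(x + (r / m) • (y - x)) i - x i| = r / m * |y i - x i| := by
      intro i
      simp only [PiLp.add_apply, PiLp.smul_apply, PiLp.sub_apply, smul_eq_mul,
        add_sub_cancel_left]
      rw [abs_mul, abs_of_pos (by positivity)]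
    obtain ⟨g, hg1, hg2⟩ := gp_near' x hr hN (y := x + (r / m) • (y - x)) (by
      intro i
      rw [hcoord i]
      have h1 := hi0 i (Finset.mem_univ i)
      calc r / m * |y i - x i| ≤ r / m * m := mul_le_mul_of_nonneg_left h1 (by positivity)
        _ = r := div_mul_cancel₀ r hmpos.ne')
    have hgB : g ∈ BB d (2 ^ J) := by
      rw [mem_BB]
      refine ⟨i0, hg2 i0 ?_⟩
      rw [hcoord i0, ← hm, div_mul_cancel₀ r hmpos.ne']
    refine ⟨pr x r (gp x r (2 ^ J) g), hGg g hgB, ?_⟩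
    have h1 := pr_lip x hr (x + (r / m) • (y - x)) (gp x r (2 ^ J) g)
    rw [pr_ray x hr hy hc] at h1
    refine h1.trans ?_
    simpa using hg1

/-- The basic recursion with the net on the sphere. -/
lemma rec_step2 (hd : 3 ≤ d) {S : Set (EuclideanSpace ℝ (Fin d))} (hSc : IsClosed S)
    {x : EuclideanSpace ℝ (Fin d)} {r : ℝ}
    (hfin : μH[1] (S ∩ Metric.ball x r) ≠ ⊤) (hloc : LocMin S x r) {ρ ρ' : ℝ} (hρ : 0 < ρ)
    (hρρ : ρ < ρ') (hρ' : ρ' ≤ r) (J : ℕ) :
    (μH[1] (S ∩ Metric.ball x ρ)).toReal ≤ Cd d * (2 ^ (d - 2) : ℝ) ^ J * r +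
      Real.sqrt d * (r / 2 ^ J) * ((μH[1] (S ∩ Metric.ball x ρ')).toReal / (ρ' - ρ)) := by
  classical
  have hr : 0 < r := hρ.trans (hρρ.trans_le hρ')
  have hCd : 0 ≤ Cd d := by unfold Cd; positivity
  set ℓ := (μH[1] (S ∩ Metric.ball x ρ')).toReal with hℓ
  have hℓ0 : 0 ≤ ℓ := ENNReal.toReal_nonneg
  have hfin' : μH[1] (S ∩ Metric.ball x ρ') ≠ ⊤ :=
    ne_top_of_le_ne_top hfin (measure_mono (inter_subset_inter_right _ (Metric.ball_subset_ball hρ')))
  have hm : MeasurableSet (S ∩ Metric.ball x ρ') :=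
    hSc.measurableSet.inter Metric.isOpen_ball.measurableSet
  obtain ⟨σ, hσ, F, hF, hFc⟩ := exists_slice hm (f := fun y => dist y x)
    (LipschitzWith.dist_left x) hρρ hℓ0 (by rw [hℓ, ENNReal.ofReal_toReal hfin'])
  have hFs : (F : Set (EuclideanSpace ℝ (Fin d))) = S ∩ Metric.sphere x σ := by
    rw [hF]
    ext z
    constructor
    · rintro ⟨⟨hz, _⟩, hz2⟩
      exact ⟨hz, hz2⟩
    · rintro ⟨hz, hz2⟩
      refine ⟨⟨hz, ?_⟩, hz2⟩
      rw [Metric.mem_sphere] at hz2
      rw [Metric.mem_ball, hz2]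
      exact hσ.2
  have hσ0 : 0 < σ := hρ.trans hσ.1
  have hσr : σ ≤ r := hσ.2.le.trans hρ'
  have hρ'σ : 0 < ρ' - ρ := by linarith
  have hcard : (F.card : ℝ) ≤ ℓ / (ρ' - ρ) := by rwa [le_div_iff₀ hρ'σ]
  have hsd : 0 ≤ Real.sqrt d * (r / 2 ^ J) := by positivity
  rcases (S ∩ Metric.ball x σ).eq_empty_or_nonempty with h0 | h0
  · have h1 : S ∩ Metric.ball x ρ = ∅ := by
      rw [eq_empty_iff_forall_notMem] at h0 ⊢
      intro z hz
      exact h0 z ⟨hz.1, Metric.ball_subset_ball hσ.1.le hz.2⟩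
    rw [h1, measure_empty, ENNReal.toReal_zero]
    have : 0 ≤ ℓ / (ρ' - ρ) := by positivity
    positivity
  obtain ⟨G, hGc, hGp, ⟨g0, hg0⟩, hGm, hGn⟩ := exists_sph hd x hσ0 J
  have hex : ∀ y : EuclideanSpace ℝ (Fin d), ∃ g, y ∈ Metric.sphere x σ →
      g ∈ G ∧ dist y g ≤ Real.sqrt d * (σ / 2 ^ J) := by
    intro y
    by_cases hy : y ∈ Metric.sphere x σ
    · obtain ⟨g, hg, hd⟩ := hGn y hy
      exact ⟨g, fun _ => ⟨hg, hd⟩⟩
    · exact ⟨x, fun h => absurd h hy⟩
  choose γ hγ using hex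
  have hFsph : ∀ y ∈ F, y ∈ Metric.sphere x σ := by
    intro y hy
    have h1 : y ∈ (F : Set (EuclideanSpace ℝ (Fin d))) := hy
    rw [hFs] at h1
    exact h1.2
  set Q : Set (EuclideanSpace ℝ (Fin d)) := G ∪ ⋃ y ∈ F, segment ℝ y (γ y) with hQ
  have hQc : IsCompact Q := by
    refine hGc.union (F.finite_toSet.isCompact_biUnion fun y _ => ?_)
    rw [segment_eq_image_lineMap]
    exact isCompact_Icc.image AffineMap.lineMap_continuous
  have hQp : IsPreconnected Q := by
    refine isPreconnected_of_forall g0 ?_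
    rintro z (hz | hz)
    · exact ⟨G, subset_union_left, hg0, hz, hGp⟩
    · obtain ⟨y, hy, hz⟩ := mem_iUnion₂.mp hz
      refine ⟨G ∪ segment ℝ y (γ y), ?_, Or.inl hg0, Or.inr hz, ?_⟩
      · refine union_subset subset_union_left (subset_trans ?_ subset_union_right)
        exact subset_biUnion_of_mem (u := fun y => segment ℝ y (γ y)) hy
      · exact IsPreconnected.union (γ y) (hγ y (hFsph y hy)).1 (right_mem_segment ℝ _ _) hGp
          (convex_segment _ _).isPreconnected
  have hQm : μH[1] Q ≤ ENNReal.ofReal (Cd d * (2 ^ (d - 2) : ℝ) ^ J * r +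
      Real.sqrt d * (r / 2 ^ J) * (ℓ / (ρ' - ρ))) := by
    refine (measure_union_le _ _).trans ?_
    rw [ENNReal.ofReal_add (by positivity) (mul_nonneg hsd (div_nonneg hℓ0 hρ'σ.le))]
    refine add_le_add (hGm.trans (ENNReal.ofReal_le_ofReal ?_)) ?_
    · exact mul_le_mul_of_nonneg_left hσr (by positivity)
    refine (measure_biUnion_finset_le _ _).trans ?_
    calc ∑ y ∈ F, μH[1] (segment ℝ y (γ y))
        ≤ ∑ _y ∈ F, ENNReal.ofReal (Real.sqrt d * (r / 2 ^ J)) := by
          refine Finset.sum_le_sum fun y hy => ?_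
          rw [hausdorffMeasure_segment, edist_dist]
          apply ENNReal.ofReal_le_ofReal
          refine (hγ y (hFsph y hy)).2.trans ?_
          gcongr
      _ = ENNReal.ofReal (F.card * (Real.sqrt d * (r / 2 ^ J))) := by
          rw [Finset.sum_const, nsmul_eq_mul, natCast_mul_ofReal]
      _ ≤ ENNReal.ofReal (Real.sqrt d * (r / 2 ^ J) * (ℓ / (ρ' - ρ))) := by
          apply ENNReal.ofReal_le_ofReal
          rw [mul_comm]
          exact mul_le_mul_of_nonneg_left hcard hsd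
  have h1 := hloc σ hσ0 (hσ.2.trans_le hρ') Q hQc hQp (by
    rw [← hFs]
    intro y hy
    exact Or.inr (mem_iUnion₂.mpr ⟨y, hy, left_mem_segment ℝ _ _⟩)) h0
  have h2 : μH[1] (S ∩ Metric.ball x ρ) ≤ ENNReal.ofReal
      (Cd d * (2 ^ (d - 2) : ℝ) ^ J * r +
      Real.sqrt d * (r / 2 ^ J) * (ℓ / (ρ' - ρ))) :=
    (measure_mono (inter_subset_inter_right _ (Metric.ball_subset_ball hσ.1.le))).trans
      (h1.trans hQm)
  have h3 := ENNReal.toReal_mono ENNReal.ofReal_ne_top h2
  rwa [ENNReal.toReal_ofReal (add_nonneg (by positivity)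
    (mul_nonneg hsd (div_nonneg hℓ0 hρ'σ.le)))] at h3

/-- The length of `S` in the ball of radius `t r` is at most a constant times
`(1 - t)^(-(d-2)) r`. -/
theorem length_bound2 (hd : 3 ≤ d) {S : Set (EuclideanSpace ℝ (Fin d))} (hSc : IsClosed S)
    {x : EuclideanSpace ℝ (Fin d)} {r : ℝ} (hr : 0 < r)
    (hfin : μH[1] (S ∩ Metric.ball x r) ≠ ⊤) (hloc : LocMin S x r) {t : ℝ} (ht0 : 0 < t)
    (ht1 : t < 1) {J : ℕ} (hJ : Real.sqrt d * 2 ^ d ≤ 2 ^ J * (1 - t)) :
    (μH[1] (S ∩ Metric.ball x (t * r))).toReal ≤ 2 * (Cd d * (2 ^ (d - 2) : ℝ) ^ J * r) := by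
  have hCd : 0 ≤ Cd d := by unfold Cd; positivity
  have hpos : ∀ k : ℕ, (0:ℝ) < (1 / 2) ^ k := fun k => by positivity
  have hle : ∀ k : ℕ, ((1:ℝ) / 2) ^ k ≤ 1 := fun k => pow_le_one₀ (by norm_num) (by norm_num)
  let ρ : ℕ → ℝ := fun k => r * (1 - (1 - t) * (1 / 2) ^ k)
  have hρ0 : ρ 0 = t * r := by simp [ρ]; ring
  have hρpos : ∀ k, 0 < ρ k := by
    intro k
    apply mul_pos hr
    nlinarith [hpos k, hle k]
  have hρr : ∀ k, ρ k ≤ r := by
    intro k
    have : 0 ≤ (1 - t) * (1 / 2) ^ k := mul_nonneg (by linarith) (hpos k).le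
    show r * (1 - (1 - t) * (1 / 2) ^ k) ≤ r
    nlinarith
  have hstep : ∀ k, ρ (k + 1) - ρ k = r * (1 - t) * (1 / 2) ^ k / 2 := by
    intro k
    simp only [ρ, pow_succ]
    ring
  have hρlt : ∀ k, ρ k < ρ (k + 1) := by
    intro k
    have h1 := hstep k
    have : 0 < r * (1 - t) * (1 / 2) ^ k / 2 := by
      have := hpos k
      have : 0 < 1 - t := by linarith
      positivity
    linarith
  have hdd : (1 / 2 : ℝ) ^ (d - 1) * 2 ^ (d - 2) ≤ 1 / 2 := by
    obtain ⟨n, rfl⟩ : ∃ n, d = n + 2 := ⟨d - 2, by omega⟩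
    have h4 : n + 2 - 1 = n + 1 := by omega
    have h5 : n + 2 - 2 = n := by omega
    rw [h4, h5, pow_succ, mul_assoc, mul_comm (1 / 2 : ℝ), ← mul_assoc, ← mul_pow]
    norm_num
  have hmain := iterate_bound (a := fun k => (μH[1] (S ∩ Metric.ball x (ρ k))).toReal)
    (c := Cd d * (2 ^ (d - 2) : ℝ) ^ J * r) (θ := (1 / 2) ^ (d - 1)) (q := 2 ^ (d - 2))
    (M := (μH[1] (S ∩ Metric.ball x r)).toReal) (by positivity) (by positivity)
    (pow_lt_one₀ (by norm_num) (by norm_num) (by omega)) hdd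
    (by positivity) (fun k => ENNReal.toReal_mono hfin
      (measure_mono (inter_subset_inter_right _ (Metric.ball_subset_ball (hρr k))))) (by
      intro k
      refine (rec_step2 hd hSc hfin hloc (hρpos k) (hρlt k) (hρr (k + 1)) (J + k)).trans ?_
      refine add_le_add ?_ ?_
      · rw [pow_add]
        apply le_of_eq
        ring
      · set m := (μH[1] (S ∩ Metric.ball x (ρ (k + 1)))).toReal with hm
        have hm0 : 0 ≤ m := ENNReal.toReal_nonneg
        rw [hstep k]
        have h1t : 0 < 1 - t := by linarith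
        have h3 : Real.sqrt d * (r / 2 ^ (J + k)) *
            (m / (r * (1 - t) * (1 / 2) ^ k / 2)) = (Real.sqrt d * 2 / (2 ^ J * (1 - t))) * m := by
          have : ((1:ℝ) / 2) ^ k = 1 / 2 ^ k := by rw [one_div_pow]
          rw [this, pow_add]
          field_simp
        rw [h3]
        refine mul_le_mul_of_nonneg_right ?_ hm0
        rw [div_le_iff₀ (by positivity)]
        have h4 : ((1:ℝ) / 2) ^ (d - 1) * (2 ^ J * (1 - t)) ≥
            ((1:ℝ) / 2) ^ (d - 1) * (Real.sqrt d * 2 ^ d) :=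
          mul_le_mul_of_nonneg_left hJ (by positivity)
        have h5 : ((1:ℝ) / 2) ^ (d - 1) * (Real.sqrt d * 2 ^ d) = Real.sqrt d * 2 := by
          obtain ⟨n, rfl⟩ : ∃ n, d = n + 1 := ⟨d - 1, by omega⟩
          have h6 : n + 1 - 1 = n := by omega
          rw [h6, one_div_pow, pow_succ 2 n]
          field_simp
        linarith)
  simp only [hρ0] at hmain
  exact hmain

end Pool.Agent.Helper877_Fin
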