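import Pool.Agent.Helper877_Fin.Plane
import Pool.Agent.Helper877_Fin.Sph

set_option autoImplicit false

open scoped MeasureTheory ENNReal Topology InnerProductSpace
open MeasureTheory Set Filter
open Pool.Agent.R154.Steiner

namespace Pool.Agent.Helper877_Fin

lemma Cd_pos {d : ℕ} : 0 < Cd d := by unfold Cd; positivity

lemma exists_level {x : ℝ} (hx : 1 ≤ x) : ∃ J : ℕ, x ≤ 2 ^ J ∧ (2:ℝ) ^ J ≤ 2 * x := by
  obtain ⟨n, h1, h2⟩ := exists_nat_pow_near hx (by norm_num : (1:ℝ) < 2)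
  refine ⟨n + 1, h2.le, ?_⟩
  rw [pow_succ]
  linarith

/-- The bound for the number of branching points in dimension at least three. -/
theorem br_bound3 {d : ℕ} (hd : 3 ≤ d) {A S : Set (EuclideanSpace ℝ (Fin d))} (hA : IsClosed A)
    (hS : IsClosed S) (hSconn : IsConnected S) (hSA : IsPreconnected (S ∪ A)) (hfin : μH[1] S ≠ ⊤)
    {x : EuclideanSpace ℝ (Fin d)} {r : ℝ} (hr : 0 < r)
    (hmin : ∀ T : Set (EuclideanSpace ℝ (Fin d)), IsClosed T → IsConnected (T ∪ A) →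
      S \ Metric.ball x r ⊆ T → μH[1] S ≤ μH[1] T)
    (hAr : A ∩ Metric.ball x r = ∅) {t : ℝ} (ht0 : 0 < t) (ht1 : t < 1) {J : ℕ}
    (hJ : Real.sqrt d * 2 ^ (d + 1) ≤ 2 ^ J * (1 - t)) {M : ℕ}
    (hM : 4 * (Cd d * (2 ^ (d - 2) : ℝ) ^ J) < (M + 1) * (1 - t)) :
    {y | y ∈ Metric.ball x (t * r) ∧ IsBr A S y}.encard ≤ ((M - 2 : ℕ) : ℕ∞) := by
  have hCd := Cd_pos (d := d)
  have hloc : LocMin S x r := locMin_of_set' hA hS hSA hfin hmin hAr
  have hfin' : ∀ s, μH[1] (S ∩ Metric.ball x s) ≠ ⊤ := fun s =>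
    ne_top_of_le_ne_top hfin (measure_mono inter_subset_left)
  have hlen := length_bound2 hd hS hr (hfin' r) hloc (t := (1 + t) / 2) (by linarith) (by linarith)
    (J := J) (by
      rw [pow_succ] at hJ
      linarith)
  refine br_slice hA hS hSconn hSA hfin hmin hAr (s := t * r) (r' := (1 + t) / 2 * r)
    (L := 2 * (Cd d * (2 ^ (d - 2) : ℝ) ^ J * r)) (by nlinarith) (by nlinarith) (by positivity)
    ?_ ?_
  · rw [← ENNReal.ofReal_toReal (hfin' _)]
    exact ENNReal.ofReal_le_ofReal hlen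
  · nlinarith

end Pool.Agent.Helper877_Fin
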