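import Pool.Agent.Helper877_Fin.Slice
import Pool.Agent.R154.Steiner.Min

set_option autoImplicit false

open scoped MeasureTheory ENNReal Topology InnerProductSpace
open MeasureTheory Set Filter
open Pool.Agent.R154.Steiner

namespace Pool.Agent.Helper877_Fin

section conn

variable {E : Type*} [MetricSpace E]

/-- Replacing the part of a connected set inside a ball by a connected set that meets all its
points on the sphere keeps it connected. -/
lemma conn_replace {X Q : Set E} (hXc : IsClosed X) (hX : IsPreconnected X)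
    (hQ : IsPreconnected Q) {x : E} {ρ : ℝ} (hsub : X ∩ Metric.sphere x ρ ⊆ Q)
    (hne : (X ∩ Metric.ball x ρ).Nonempty) :
    IsPreconnected ((X \ Metric.ball x ρ) ∪ Q) := by
  rw [isPreconnected_closed_iff]
  have hpc := isPreconnected_closed_iff.mp hX
  have key : ∀ U V : Set E, IsClosed U → IsClosed V →
      (X \ Metric.ball x ρ) ∪ Q ⊆ U ∪ V → Q ⊆ U →
      (((X \ Metric.ball x ρ) ∪ Q) ∩ V).Nonempty →
      (((X \ Metric.ball x ρ) ∪ Q) ∩ (U ∩ V)).Nonempty := by
    intro U V hU hV hUV hQU hV'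
    by_contra hcon
    rw [not_nonempty_iff_eq_empty] at hcon
    have hno : ∀ z, z ∈ (X \ Metric.ball x ρ) ∪ Q → z ∈ U → z ∈ V → False := by
      intro z h1 h2 h3
      have : z ∈ ((X \ Metric.ball x ρ) ∪ Q) ∩ (U ∩ V) := ⟨h1, h2, h3⟩
      rw [hcon] at this
      exact this
    obtain ⟨z, hzX, ⟨hzV, hzr⟩, hz2⟩ := hpc (V ∩ {z | ρ ≤ dist z x}) (Metric.closedBall x ρ ∪ U)
        (hV.inter (isClosed_le continuous_const (continuous_id.dist continuous_const)))
        (Metric.isClosed_closedBall.union hU) (by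
          intro z hz
          by_cases hzb : z ∈ Metric.ball x ρ
          · exact Or.inr (Or.inl (Metric.ball_subset_closedBall hzb))
          · rcases hUV (Or.inl ⟨hz, hzb⟩) with h | h
            · exact Or.inr (Or.inr h)
            · refine Or.inl ⟨h, ?_⟩
              rw [Metric.mem_ball, not_lt] at hzb
              exact hzb) (by
          obtain ⟨z, hz1, hz2⟩ := hV'
          rcases hz1 with ⟨hzS, hzb⟩ | hz1
          · refine ⟨z, hzS, hz2, ?_⟩
            rw [Metric.mem_ball, not_lt] at hzb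
            exact hzb
          · exact (hno z (Or.inr hz1) (hQU hz1) hz2).elim) (by
          obtain ⟨z, hz1, hz2⟩ := hne
          exact ⟨z, hz1, Or.inl (Metric.ball_subset_closedBall hz2)⟩)
    have hzn : z ∉ Metric.ball x ρ := by
      rw [Metric.mem_ball, not_lt]; exact hzr
    have hmem : z ∈ (X \ Metric.ball x ρ) ∪ Q := Or.inl ⟨hzX, hzn⟩
    rcases hz2 with h | h
    · have hs : z ∈ Metric.sphere x ρ := by
        rw [Metric.mem_sphere]; exact le_antisymm h hzr
      exact hno z hmem (hQU (hsub ⟨hzX, hs⟩)) hzV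
    · exact hno z hmem h hzV
  intro U V hU hV hUV hUn hVn
  by_cases hsU : Q ⊆ U
  · exact key U V hU hV hUV hsU hVn
  by_cases hsV : Q ⊆ V
  · have := key V U hV hU (by rwa [union_comm V U]) hsV hUn
    rwa [inter_comm V U] at this
  · obtain ⟨z, hz1, hz2⟩ := isPreconnected_closed_iff.mp hQ U V hU hV
      (subset_union_right.trans hUV) (by
        obtain ⟨z, hz1, hz2⟩ := not_subset.mp hsV
        exact ⟨z, hz1, (hUV (Or.inr hz1)).resolve_right hz2⟩) (by
        obtain ⟨z, hz1, hz2⟩ := not_subset.mp hsU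
        exact ⟨z, hz1, (hUV (Or.inr hz1)).resolve_left hz2⟩)
    exact ⟨z, Or.inr hz1, hz2⟩

variable [MeasurableSpace E] [BorelSpace E]

/-- Inside the balls `B_ρ(x)`, `ρ < r`, the set `S` cannot be replaced by a shorter connected
set. -/
def LocMin (S : Set E) (x : E) (r : ℝ) : Prop :=
  ∀ ρ : ℝ, 0 < ρ → ρ < r → ∀ Q : Set E, IsCompact Q → IsPreconnected Q →
    S ∩ Metric.sphere x ρ ⊆ Q → (S ∩ Metric.ball x ρ).Nonempty → μH[1] (S ∩ Metric.ball x ρ) ≤ μH[1] Q

/-- Steiner sets are locally minimal: version for `S ∪ A` connected. -/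
lemma locMin_of_set {A S : Set E} (hA : IsClosed A) (hS : IsClosed S) (hSA : IsPreconnected (S ∪ A))
    (hfin : μH[1] S ≠ ⊤)
    (hmin : ∀ T : Set E, IsClosed T → IsConnected (T ∪ A) → μH[1] S ≤ μH[1] T)
    {x : E} {r : ℝ} (hAr : A ∩ Metric.ball x r = ∅) : LocMin S x r := by
  intro ρ hρ hρr Q hQc hQ hsub hne
  have hAb : ∀ z ∈ A, r ≤ dist z x := by
    intro z hz
    by_contra h
    push Not at h
    have : z ∈ A ∩ Metric.ball x r := ⟨hz, h⟩
    rw [hAr] at this
    exact this
  have h1 : IsPreconnected (((S ∪ A) \ Metric.ball x ρ) ∪ Q) := by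
    refine conn_replace (hS.union hA) hSA hQ ?_ ?_
    · rintro z ⟨hz | hz, hzs⟩
      · exact hsub ⟨hz, hzs⟩
      · have := hAb z hz
        rw [Metric.mem_sphere] at hzs
        linarith
    · exact hne.mono (inter_subset_inter_left _ subset_union_left)
  have h2 : ((S ∪ A) \ Metric.ball x ρ) ∪ Q = ((S \ Metric.ball x ρ) ∪ Q) ∪ A := by
    ext z
    constructor
    · rintro (⟨hz | hz, hzb⟩ | hz)
      · exact Or.inl (Or.inl ⟨hz, hzb⟩)
      · exact Or.inr hz
      · exact Or.inl (Or.inr hz)
    · rintro ((⟨hz, hzb⟩ | hz) | hz)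
      · exact Or.inl ⟨Or.inl hz, hzb⟩
      · exact Or.inr hz
      · refine Or.inl ⟨Or.inr hz, fun h => ?_⟩
        have := hAb z hz
        rw [Metric.mem_ball] at h
        linarith
  rw [h2] at h1
  by_cases hne' : (((S \ Metric.ball x ρ) ∪ Q) ∪ A).Nonempty
  · have h3 := hmin ((S \ Metric.ball x ρ) ∪ Q)
      ((hS.sdiff Metric.isOpen_ball).union hQc.isClosed) ⟨hne', h1⟩
    have hsplit : μH[1] S = μH[1] (S ∩ Metric.ball x ρ) + μH[1] (S \ Metric.ball x ρ) :=
      (measure_inter_add_sdiff S Metric.isOpen_ball.measurableSet).symm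
    have h4 := h3.trans (measure_union_le _ _)
    rw [hsplit, add_comm] at h4
    refine (ENNReal.add_le_add_iff_left ?_).mp h4
    exact ne_top_of_le_ne_top hfin (measure_mono sdiff_subset)
  · -- then `A`, `Q` are empty and `S` is inside the ball
    rw [not_nonempty_iff_eq_empty] at hne'
    have hA0 : A = ∅ := by
      rw [eq_empty_iff_forall_notMem]
      intro z hz
      have : z ∈ ((S \ Metric.ball x ρ) ∪ Q) ∪ A := Or.inr hz
      rw [hne'] at this
      exact this
    obtain ⟨z, hz, hzb⟩ := hne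
    have h3 := hmin {z} isClosed_singleton (by rw [hA0, union_empty]; exact isConnected_singleton)
    rw [noAtom] at h3
    calc μH[1] (S ∩ Metric.ball x ρ) ≤ μH[1] S := measure_mono inter_subset_left
      _ ≤ 0 := h3
      _ ≤ _ := zero_le

end conn

end Pool.Agent.Helper877_Fin
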