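import Pool.Agent.Helper877_Fin.Cnt2
import Pool.Agent.R154.Steiner.Circle

set_option autoImplicit false

open scoped MeasureTheory ENNReal Topology InnerProductSpace
open MeasureTheory Set Filter
open Pool.Agent.R154.Steiner

namespace Pool.Agent.Helper877_Fin

/-- If `S` has length at most `L` in the ball of radius `r'` and `L < (M + 1) (r' - s)` then there
are at most `M - 2` branching points in the ball of radius `s < r'`. -/
theorem br_slice {d : ℕ} {A S : Set (EuclideanSpace ℝ (Fin d))} (hA : IsClosed A) (hS : IsClosed S)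
    (hSconn : IsConnected S) (hSA : IsPreconnected (S ∪ A)) (hfin : μH[1] S ≠ ⊤)
    {x : EuclideanSpace ℝ (Fin d)} {r : ℝ}
    (hmin : ∀ T : Set (EuclideanSpace ℝ (Fin d)), IsClosed T → IsConnected (T ∪ A) →
      S \ Metric.ball x r ⊆ T → μH[1] S ≤ μH[1] T)
    (hAr : A ∩ Metric.ball x r = ∅) {s r' L : ℝ} (hsr : s < r') (hr' : r' ≤ r) (hL0 : 0 ≤ L)
    (hL : μH[1] (S ∩ Metric.ball x r') ≤ ENNReal.ofReal L) {M : ℕ} (hM : L < (M + 1) * (r' - s)) :
    {y | y ∈ Metric.ball x s ∧ IsBr A S y}.encard ≤ ((M - 2 : ℕ) : ℕ∞) := by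
  classical
  have hScomp := compact_of_finite hS hSconn.isPreconnected hfin
  by_cases hSb : ∀ z ∈ S, dist z x < r
  · have hempty : {y | y ∈ Metric.ball x s ∧ IsBr A S y} = ∅ := by
      rw [eq_empty_iff_forall_notMem]
      rintro y ⟨_, ⟨hyS, _⟩, η, hη, D, hD3, hD1, hSD⟩
      have hA0 : A = ∅ := by
        by_contra hne
        obtain ⟨a, ha⟩ := nonempty_iff_ne_empty.mpr hne
        obtain ⟨z, _, hz1, hz2⟩ := isPreconnected_closed_iff.mp hSA S A hS hA Subset.rfl
          ⟨y, Or.inl hyS, hyS⟩ ⟨a, Or.inr ha, ha⟩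
        have : z ∈ A ∩ Metric.ball x r := ⟨hz2, hSb z hz1⟩
        rw [hAr] at this
        exact this
      have h1 := hmin {y} isClosed_singleton
        (by rw [hA0, union_empty]; exact isConnected_singleton)
        (by
          intro z hz
          exact absurd (hSb z hz.1) hz.2)
      rw [noAtom] at h1
      obtain ⟨u, hu⟩ : D.Nonempty := Finset.card_pos.mp (by omega)
      have hd : dist (y + (η / 2) • u) y = η / 2 := by
        rw [dist_eq_norm, add_sub_cancel_left, norm_smul, hD1 u hu, mul_one,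
          Real.norm_of_nonneg (by positivity)]
      have h2 : y + (η / 2) • u ∈ S ∩ Metric.ball y η := by
        rw [hSD]
        refine ⟨⟨u, hu, η / 2, by positivity, rfl⟩, ?_⟩
        rw [Metric.mem_ball, hd]
        linarith
      have h3 := H_conn hSconn.isPreconnected h2.1 hyS
      rw [hd] at h3
      have h4 := h3.trans h1
      rw [nonpos_iff_eq_zero, ENNReal.ofReal_eq_zero] at h4
      linarith
    rw [hempty, Set.encard_empty]
    exact zero_le
  · push Not at hSb
    obtain ⟨z, hz, hzr⟩ := hSb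
    obtain ⟨ρ, hρ, F, hF, hFc⟩ := exists_slice
      (hS.measurableSet.inter Metric.isOpen_ball.measurableSet :
        MeasurableSet (S ∩ Metric.ball x r'))
      (f := fun y => dist y x) (LipschitzWith.dist_left x) hsr hL0 hL
    have hFs : (F : Set (EuclideanSpace ℝ (Fin d))) = S ∩ Metric.sphere x ρ := by
      rw [hF]
      ext w
      constructor
      · rintro ⟨⟨hw, _⟩, hw2⟩
        exact ⟨hw, hw2⟩
      · rintro ⟨hw, hw2⟩
        refine ⟨⟨hw, ?_⟩, hw2⟩
        rw [Metric.mem_sphere] at hw2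
        rw [Metric.mem_ball, hw2]
        exact hρ.2
    have hρr : ρ < r := hρ.2.trans_le hr'
    have h1 := br_count2 hA hS hScomp hSconn.isPreconnected hSA hfin hmin hAr hρr hz
      (hρr.le.trans hzr) F hFs
    have hcard : F.card ≤ M := by
      have h2 : (F.card : ℝ) * (r' - s) < (M + 1) * (r' - s) := lt_of_le_of_lt hFc hM
      have h3 : (F.card : ℝ) < M + 1 := lt_of_mul_lt_mul_right h2 (by linarith)
      have h4 : F.card < M + 1 := by exact_mod_cast h3
      omega
    have hsub : {y | y ∈ Metric.ball x s ∧ IsBr A S y} ⊆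
        {y | y ∈ Metric.ball x ρ ∧ IsBr A S y} := fun y hy =>
      ⟨Metric.ball_subset_ball hρ.1.le hy.1, hy.2⟩
    refine (Set.encard_le_encard hsub).trans (h1.trans ?_)
    have h7 : F.card - 2 ≤ M - 2 := by omega
    exact_mod_cast h7

/-- In the plane the length in the ball is at most `2 π r`. -/
lemma plane_length {S : Set (EuclideanSpace ℝ (Fin 2))} {x : EuclideanSpace ℝ (Fin 2)} {r : ℝ}
    (hr : 0 < r) (hloc : LocMin S x r) :
    μH[1] (S ∩ Metric.ball x r) ≤ ENNReal.ofReal (2 * Real.pi * r) := by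
  have h1 : ∀ ρ : ℝ, 0 < ρ → ρ < r → μH[1] (S ∩ Metric.ball x ρ) ≤
      ENNReal.ofReal (2 * Real.pi * r) := by
    intro ρ hρ hρr
    rcases (S ∩ Metric.ball x ρ).eq_empty_or_nonempty with h0 | h0
    · rw [h0]; simp
    have hsph : IsConnected (Metric.sphere x ρ) := by
      refine isConnected_sphere ?_ x hρ.le
      rw [← Module.finrank_eq_rank]
      simp
    refine (hloc ρ hρ hρr (Metric.sphere x ρ) (isCompact_sphere x ρ) hsph.isPreconnected
      inter_subset_right h0).trans ((circle_le x hρ).trans ?_)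
    apply ENNReal.ofReal_le_ofReal
    have := Real.pi_pos
    nlinarith
  have h2 : S ∩ Metric.ball x r = ⋃ n : ℕ, S ∩ Metric.ball x (r * (1 - 1 / ((n : ℝ) + 2))) := by
    ext z
    simp only [mem_iUnion, mem_inter_iff, Metric.mem_ball]
    constructor
    · rintro ⟨hz, hz2⟩
      have hpos : 0 < 1 - dist z x / r := by
        rw [sub_pos, div_lt_one hr]; exact hz2
      obtain ⟨n, hn⟩ := exists_nat_gt (1 / (1 - dist z x / r))
      refine ⟨n, hz, ?_⟩
      rw [div_lt_iff₀ hpos] at hn
      have h3 : (0:ℝ) < (n:ℝ) + 2 := by positivity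
      have h4 : 1 / ((n:ℝ) + 2) < 1 - dist z x / r := by
        rw [div_lt_iff₀ h3]
        nlinarith
      have h5 : dist z x / r < 1 - 1 / ((n:ℝ) + 2) := by linarith
      rw [div_lt_iff₀ hr] at h5
      linarith
    · rintro ⟨n, hz, hz2⟩
      refine ⟨hz, hz2.trans_le ?_⟩
      have h3 : (0:ℝ) < 1 / ((n:ℝ) + 2) := by positivity
      nlinarith
  rw [h2, Monotone.measure_iUnion]
  · refine iSup_le fun n => h1 _ ?_ ?_
    · have h3 : (0:ℝ) < (n:ℝ) + 2 := by positivity
      have h4 : 1 / ((n:ℝ) + 2) < 1 := by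
        rw [div_lt_one h3]
        have : (0:ℝ) ≤ n := Nat.cast_nonneg n
        linarith
      apply mul_pos hr
      linarith
    · have h3 : (0:ℝ) < 1 / ((n:ℝ) + 2) := by positivity
      nlinarith
  · intro m n hmn
    refine inter_subset_inter_right _ (Metric.ball_subset_ball ?_)
    have h3 : (m:ℝ) ≤ n := by exact_mod_cast hmn
    have h4 : 1 / ((n:ℝ) + 2) ≤ 1 / ((m:ℝ) + 2) :=
      one_div_le_one_div_of_le (by positivity) (by linarith)
    nlinarith

/-- In the plane there are at most `M - 2` branching points in `B_{tr}(x)` if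
`2 π < (M + 1) (1 - t)`. -/
theorem br_plane {A S : Set (EuclideanSpace ℝ (Fin 2))} (hA : IsClosed A) (hS : IsClosed S)
    (hSconn : IsConnected S) (hSA : IsPreconnected (S ∪ A)) (hfin : μH[1] S ≠ ⊤)
    {x : EuclideanSpace ℝ (Fin 2)} {r : ℝ} (hr : 0 < r)
    (hmin : ∀ T : Set (EuclideanSpace ℝ (Fin 2)), IsClosed T → IsConnected (T ∪ A) →
      S \ Metric.ball x r ⊆ T → μH[1] S ≤ μH[1] T)
    (hAr : A ∩ Metric.ball x r = ∅) {t : ℝ} (ht1 : t < 1) {M : ℕ}
    (hM : 2 * Real.pi < (M + 1) * (1 - t)) :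
    {y | y ∈ Metric.ball x (t * r) ∧ IsBr A S y}.encard ≤ ((M - 2 : ℕ) : ℕ∞) := by
  have hloc : LocMin S x r := locMin_of_set' hA hS hSA hfin hmin hAr
  refine br_slice hA hS hSconn hSA hfin hmin hAr (s := t * r) (r' := r)
    (L := 2 * Real.pi * r) (by nlinarith) le_rfl (by have := Real.pi_pos; positivity)
    (plane_length hr hloc) ?_
  nlinarith

end Pool.Agent.Helper877_Fin
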