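import Pool.Agent.R154.Steiner.Net

set_option autoImplicit false

open scoped MeasureTheory ENNReal Topology InnerProductSpace
open MeasureTheory Set Filter
open Pool.Agent.R154.Steiner

namespace Pool.Agent.Helper877_Fin

variable {E : Type*} [MetricSpace E] [MeasurableSpace E] [BorelSpace E]
  [TopologicalSpace.SeparableSpace E]

omit [MeasurableSpace E] [BorelSpace E] in
/-- A countable cover by small balls. -/
lemma exists_cover (ε : ℝ) (hε : 0 < ε) (x0 : E) : ∃ c : ℕ → E, ⋃ j, Metric.ball (c j) ε = univ := by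
  haveI : Nonempty E := ⟨x0⟩
  refine ⟨TopologicalSpace.denseSeq E, ?_⟩
  rw [eq_univ_iff_forall]
  intro x
  have h := TopologicalSpace.denseRange_denseSeq E
  obtain ⟨j, hj⟩ := h.exists_dist_lt x hε
  exact mem_iUnion.mpr ⟨j, hj⟩

/-- A Lipschitz function has a level in every interval at which a set of finite length has few
points. -/
theorem exists_slice {S : Set E} (hS : MeasurableSet S) {f : E → ℝ} (hf : LipschitzWith 1 f)
    {a b ℓ : ℝ} (hab : a < b) (hℓ0 : 0 ≤ ℓ) (hℓ : μH[1] S ≤ ENNReal.ofReal ℓ) :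
    ∃ ρ ∈ Ioo a b, ∃ F : Finset E, (F : Set E) = S ∩ f ⁻¹' {ρ} ∧ (F.card : ℝ) * (b - a) ≤ ℓ := by
  classical
  rcases S.eq_empty_or_nonempty with h0 | ⟨x0, hx0⟩
  · refine ⟨(a + b) / 2, ⟨by linarith, by linarith⟩, ∅, by rw [h0]; simp, by simpa using hℓ0⟩
  have hcov : ∀ k : ℕ, ∃ c : ℕ → E, ⋃ j, Metric.ball (c j) (1 / ((k : ℝ) + 1)) = univ := fun k =>
    exists_cover _ (by positivity) x0
  choose c hc using hcov
  let D : ℕ → ℕ → Set E := fun k => disjointed fun j => Metric.ball (c k j) (1 / ((k : ℝ) + 1))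
  have hDm : ∀ k j, MeasurableSet (D k j) := fun k j =>
    MeasurableSet.disjointed (fun j => Metric.isOpen_ball.measurableSet) j
  have hDd : ∀ k, Pairwise (Function.onFun Disjoint (D k)) := fun k => disjoint_disjointed _
  have hDu : ∀ k, ⋃ j, D k j = univ := fun k => by
    rw [← hc k]; exact iUnion_disjointed
  have hDs : ∀ k j, D k j ⊆ Metric.ball (c k j) (1 / ((k : ℝ) + 1)) := fun k j =>
    disjointed_subset _ j
  let B : ℕ → ℕ → Set ℝ := fun k j => toMeasurable volume (f '' (S ∩ D k j))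
  have hBm : ∀ k j, MeasurableSet (B k j) := fun k j => measurableSet_toMeasurable _ _
  have hBv : ∀ k j, volume (B k j) ≤ μH[1] (S ∩ D k j) := fun k j => by
    rw [measure_toMeasurable]
    exact H_lip hf _
  let g : ℕ → ℝ → ℝ≥0∞ := fun k ρ => ∑' j, (B k j).indicator (fun _ => (1:ℝ≥0∞)) ρ
  have hgm : ∀ k, Measurable (g k) := fun k =>
    Measurable.ennreal_tsum fun j => measurable_const.indicator (hBm k j)
  have hgi : ∀ k, ∫⁻ ρ, g k ρ ≤ ENNReal.ofReal ℓ := by
    intro k
    have h1 : ∫⁻ ρ, g k ρ = ∑' j, volume (B k j) := by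
      show ∫⁻ ρ, ∑' j, (B k j).indicator (fun _ => (1:ℝ≥0∞)) ρ = _
      rw [lintegral_tsum fun j => (measurable_const.indicator (hBm k j)).aemeasurable]
      congr 1
      ext j
      rw [lintegral_indicator (hBm k j), lintegral_const, one_mul, Measure.restrict_apply_univ]
    rw [h1]
    refine (ENNReal.tsum_le_tsum (hBv k)).trans ?_
    have h2 : ∑' j, μH[1] (S ∩ D k j) = μH[1] (⋃ j, S ∩ D k j) := by
      rw [measure_iUnion]
      · exact fun i j hij => (hDd k hij).mono inter_subset_right inter_subset_right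
      · exact fun j => hS.inter (hDm k j)
    rw [h2, ← inter_iUnion, hDu, inter_univ]
    exact hℓ
  have hfatou : ∫⁻ ρ, liminf (fun k => g k ρ) atTop ≤ ENNReal.ofReal ℓ := by
    refine (lintegral_liminf_le hgm).trans ?_
    refine liminf_le_of_le (by isBoundedDefault) ?_
    intro x hx
    obtain ⟨k, hk⟩ := hx.exists
    exact hk.trans (hgi k)
  have hvol : volume (Ioo a b) = ENNReal.ofReal (b - a) := Real.volume_Ioo
  have hba : 0 < b - a := by linarith
  have hne0 : volume (Ioo a b) ≠ 0 := by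
    rw [hvol, Ne, ENNReal.ofReal_eq_zero, not_le]; exact hba
  have hnet : volume (Ioo a b) ≠ ⊤ := by rw [hvol]; exact ENNReal.ofReal_ne_top
  obtain ⟨ρ, hρ, hρle⟩ := exists_le_setLAverage (μ := volume) (s := Ioo a b)
    (f := fun ρ => liminf (fun k => g k ρ) atTop) hne0 hnet
    (Measurable.liminf hgm).aemeasurable
  rw [setLAverage_eq, hvol] at hρle
  have hρle2 : liminf (fun k => g k ρ) atTop ≤ ENNReal.ofReal (ℓ / (b - a)) := by
    refine hρle.trans ?_
    rw [ENNReal.ofReal_div_of_pos hba]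
    gcongr
    exact (setLIntegral_le_lintegral _ _).trans hfatou
  have hcount : ∀ F : Finset E, (F : Set E) ⊆ S ∩ f ⁻¹' {ρ} →
      (F.card : ℝ≥0∞) ≤ liminf (fun k => g k ρ) atTop := by
    intro F hF
    have hsep : ∃ η : ℝ, 0 < η ∧ ∀ x ∈ F, ∀ y ∈ F, x ≠ y → η ≤ dist x y := by
      by_cases hF1 : F.offDiag.Nonempty
      · obtain ⟨p, hp, hpmin⟩ := F.offDiag.exists_min_image (fun p => dist p.1 p.2) hF1
        refine ⟨dist p.1 p.2, dist_pos.mpr (Finset.mem_offDiag.mp hp).2.2, ?_⟩
        intro x hx y hy hxy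
        exact hpmin (x, y) (Finset.mem_offDiag.mpr ⟨hx, hy, hxy⟩)
      · refine ⟨1, one_pos, ?_⟩
        intro x hx y hy hxy
        exact absurd ⟨(x, y), Finset.mem_offDiag.mpr ⟨hx, hy, hxy⟩⟩ hF1
    obtain ⟨η, hη, hsep⟩ := hsep
    obtain ⟨k0, hk0⟩ := exists_nat_gt (2 / η)
    refine le_liminf_of_le (by isBoundedDefault) ?_
    filter_upwards [eventually_ge_atTop k0] with k hk
    have hkη : 2 * (1 / ((k : ℝ) + 1)) < η := by
      have h1 : (k0 : ℝ) ≤ k := by exact_mod_cast hk
      rw [div_lt_iff₀ hη] at hk0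
      have h2 : (0:ℝ) < (k:ℝ) + 1 := by positivity
      rw [mul_one_div, div_lt_iff₀ h2]
      nlinarith
    -- each point of `F` lies in one cell
    have hcell : ∀ x : E, ∃ j, x ∈ D k j := fun x => by
      have : x ∈ ⋃ j, D k j := by rw [hDu]; exact mem_univ x
      exact mem_iUnion.mp this
    choose J hJ using hcell
    have hinj : Set.InjOn J F := by
      intro x hx y hy hxy
      by_contra hne
      have h1 := hsep x hx y hy hne
      have h2 := hDs k _ (hJ x)
      have h3 := hDs k _ (hJ y)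
      rw [← hxy] at h3
      rw [Metric.mem_ball] at h2 h3
      have h4 := dist_triangle_right x y (c k (J x))
      linarith
    calc (F.card : ℝ≥0∞) = ((F.image J).card : ℝ≥0∞) := by rw [Finset.card_image_of_injOn hinj]
      _ = ∑ j ∈ F.image J, 1 := by simp
      _ ≤ ∑ j ∈ F.image J, (B k j).indicator (fun _ => (1:ℝ≥0∞)) ρ := by
          refine Finset.sum_le_sum fun j hj => ?_
          obtain ⟨x, hx, rfl⟩ := Finset.mem_image.mp hj
          have hxS := hF hx
          have : ρ ∈ B k (J x) := by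
            refine subset_toMeasurable volume _ ?_
            exact ⟨x, ⟨hxS.1, hJ x⟩, hxS.2⟩
          rw [indicator_of_mem this]
      _ ≤ g k ρ := ENNReal.sum_le_tsum _
  have hfin : (S ∩ f ⁻¹' {ρ}).Finite := by
    by_contra hinf
    obtain ⟨n, hn⟩ := exists_nat_gt (ℓ / (b - a))
    obtain ⟨F, hF, hFc⟩ := Set.Infinite.exists_subset_card_eq hinf n
    have h1 := (hcount F hF).trans hρle2
    rw [hFc] at h1
    have h2 : ENNReal.ofReal (n : ℝ) ≤ ENNReal.ofReal (ℓ / (b - a)) := by
      rwa [ENNReal.ofReal_natCast]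
    rw [ENNReal.ofReal_le_ofReal_iff (div_nonneg hℓ0 hba.le)] at h2
    linarith
  refine ⟨ρ, hρ, hfin.toFinset, by simp, ?_⟩
  have h1 := (hcount hfin.toFinset (by simp)).trans hρle2
  have h2 : ENNReal.ofReal (hfin.toFinset.card : ℝ) ≤ ENNReal.ofReal (ℓ / (b - a)) := by
    rwa [ENNReal.ofReal_natCast]
  rw [ENNReal.ofReal_le_ofReal_iff (div_nonneg hℓ0 hba.le), le_div_iff₀ hba] at h2
  exact h2

end Pool.Agent.Helper877_Fin
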