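import Pool.Agent.Helper877_Fin.Br

set_option autoImplicit false

open scoped MeasureTheory ENNReal Topology InnerProductSpace
open MeasureTheory Set Filter
open Pool.Agent.R154.Steiner

namespace Pool.Agent.Helper877_Fin

section metric

variable {E : Type*} [MetricSpace E] [MeasurableSpace E] [BorelSpace E]

/-- Adding one more point to a system of arcs; the arcs meet only in recorded points. -/
lemma step2 {T : Set E} (hTc : IsCompact T) (hT : IsPreconnected T) (hfin : μH[1] T ≠ ⊤)
    {κ : Type} [Fintype κ] [Nonempty κ] (S : ArcSys T κ) (hS : Conn S.pos) (P : Set E)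
    (hP : ∀ i j, i ≠ j → S.γ i '' Icc (S.a i) (S.b i) ∩ S.γ j '' Icc (S.a j) (S.b j) ⊆ P)
    {p : E} (hp : p ∈ T) :
    ∃ (S' : ArcSys T (Option (Option κ))) (q : E), Conn S'.pos ∧
      (∀ σ, ∃ τ, S'.pos τ = S.pos σ) ∧ (∃ τ, S'.pos τ = p) ∧
      ∀ i j, i ≠ j → S'.γ i '' Icc (S'.a i) (S'.b i) ∩ S'.γ j '' Icc (S'.a j) (S'.b j) ⊆
        insert q P := by
  classical
  obtain ⟨i0⟩ := ‹Nonempty κ›
  set K : Set E := ⋃ i, S.γ i '' Icc (S.a i) (S.b i) with hK
  have hKc : IsCompact K := isCompact_iUnion fun i => isCompact_Icc.image_of_continuousOn (S.arc i).cont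
  have hqT : S.γ i0 (S.a i0) ∈ T := (S.arc i0).maps _ ⟨le_rfl, (S.arc i0).le⟩
  obtain ⟨γ0, a0, b0, h0⟩ := exists_arc hTc hT hp hqT hfin
  set Z : Set ℝ := Icc a0 b0 ∩ γ0 ⁻¹' K with hZ
  have hZc : IsCompact Z := by
    have : IsClosed Z := h0.cont.preimage_isClosed_of_isClosed isClosed_Icc hKc.isClosed
    exact isCompact_Icc.of_isClosed_subset this inter_subset_left
  have hZne : Z.Nonempty := by
    refine ⟨b0, ⟨h0.le, le_rfl⟩, ?_⟩
    show γ0 b0 ∈ K
    rw [h0.right]
    exact mem_iUnion.mpr ⟨i0, _, ⟨le_rfl, (S.arc i0).le⟩, rfl⟩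
  obtain ⟨c, hcZ, hcmin⟩ := hZc.exists_isLeast hZne
  obtain ⟨⟨hac, hcb⟩, hcK⟩ := hcZ
  obtain ⟨i1, s1, ⟨hs1, hs2⟩, hs3⟩ := mem_iUnion.mp (show γ0 c ∈ K from hcK)
  -- the new system
  let γ' : Option (Option κ) → ℝ → E
    | none => γ0
    | some none => S.γ i1
    | some (some i) => S.γ i
  let a' : Option (Option κ) → ℝ
    | none => a0
    | some none => s1
    | some (some i) => S.a i
  let b' : Option (Option κ) → ℝ
    | none => c
    | some none => S.b i1
    | some (some i) => if i = i1 then s1 else S.b i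
  have harc : ∀ i, IsArc T (γ' i (a' i)) (γ' i (b' i)) (γ' i) (a' i) (b' i) := by
    rintro (_ | _ | i)
    · exact h0.sub le_rfl hac hcb
    · exact (S.arc i1).sub hs1 hs2 le_rfl
    · show IsArc T (S.γ i (S.a i)) (S.γ i (if i = i1 then s1 else S.b i)) (S.γ i) (S.a i)
        (if i = i1 then s1 else S.b i)
      by_cases h : i = i1
      · subst h
        simp only [if_true]
        exact (S.arc i).sub le_rfl hs1 hs2
      · simp only [h, if_false]
        exact S.arc i
  let I : Option (Option κ) → Set E := fun i => γ' i '' Icc (a' i) (b' i)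
  have hIsub : ∀ i, I (some (some i)) ⊆ S.γ i '' Icc (S.a i) (S.b i) := by
    intro i
    apply image_mono
    apply Icc_subset_Icc le_rfl
    show (if i = i1 then s1 else S.b i) ≤ S.b i
    by_cases h : i = i1
    · subst h; simp [hs2]
    · simp [h]
  have hIsub' : I (some none) ⊆ S.γ i1 '' Icc (S.a i1) (S.b i1) :=
    image_mono (Icc_subset_Icc hs1 le_rfl)
  have hIK : ∀ x, I (some x) ⊆ K := by
    rintro (_ | i)
    · exact hIsub'.trans (subset_iUnion (fun i => S.γ i '' Icc (S.a i) (S.b i)) i1)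
    · exact (hIsub i).trans (subset_iUnion (fun i => S.γ i '' Icc (S.a i) (S.b i)) i)
  have n1 : ∀ x, μH[1] (I none ∩ I (some x)) = 0 := by
    intro x
    refine measure_mono_null ?_ (noAtom (γ0 c))
    rintro z ⟨⟨t, ht, rfl⟩, hz2⟩
    have hzK := hIK x hz2
    have : c ≤ t := hcmin ⟨⟨ht.1, ht.2.trans hcb⟩, hzK⟩
    have : t = c := le_antisymm ht.2 this
    rw [this]; rfl
  have n2 : ∀ i, μH[1] (I (some none) ∩ I (some (some i))) = 0 := by
    intro i
    by_cases h : i = i1
    · subst h
      refine measure_mono_null ?_ (noAtom (S.γ i s1))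
      rintro z ⟨⟨t, ht, rfl⟩, ⟨u, hu, hut⟩⟩
      have hu' : u ∈ Icc (S.a i) s1 := by
        have : (b' (some (some i))) = s1 := by show (if i = i then s1 else S.b i) = s1; simp
        rw [this] at hu
        exact hu
      have hut' : S.γ i u = S.γ i t := hut
      have hteq : u = t := (S.arc i).inj ⟨hu'.1, hu'.2.trans hs2⟩ ⟨hs1.trans ht.1, ht.2⟩ hut'
      have : t = s1 := le_antisymm (hteq ▸ hu'.2) ht.1
      show S.γ i t ∈ ({S.γ i s1} : Set E)
      rw [this]; rfl
    · refine measure_mono_null (inter_subset_inter hIsub' (hIsub i)) (S.null i1 i (Ne.symm h))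
  have n3 : ∀ i j, i ≠ j → μH[1] (I (some (some i)) ∩ I (some (some j))) = 0 := fun i j hij =>
    measure_mono_null (inter_subset_inter (hIsub i) (hIsub j)) (S.null i j hij)
  have hnull : ∀ x y, x ≠ y → μH[1] (I x ∩ I y) = 0 := by
    rintro (_ | _ | i) (_ | _ | j) hxy
    · exact absurd rfl hxy
    · exact n1 none
    · exact n1 (some j)
    · rw [inter_comm]; exact n1 none
    · exact absurd rfl hxy
    · exact n2 j
    · rw [inter_comm]; exact n1 (some i)
    · rw [inter_comm]; exact n2 i
    · exact n3 i j (fun h => hxy (by rw [h]))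
  have m1 : ∀ x, I none ∩ I (some x) ⊆ insert (γ0 c) P := by
    rintro x z ⟨⟨t, ht, rfl⟩, hz2⟩
    have hzK := hIK x hz2
    have : c ≤ t := hcmin ⟨⟨ht.1, ht.2.trans hcb⟩, hzK⟩
    have : t = c := le_antisymm ht.2 this
    rw [this]; exact Or.inl rfl
  have m2 : ∀ i, I (some none) ∩ I (some (some i)) ⊆ insert (γ0 c) P := by
    intro i
    by_cases h : i = i1
    · subst h
      rintro z ⟨⟨t, ht, rfl⟩, ⟨u, hu, hut⟩⟩
      have hu' : u ∈ Icc (S.a i) s1 := by
        have : (b' (some (some i))) = s1 := by show (if i = i then s1 else S.b i) = s1; simp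
        rw [this] at hu
        exact hu
      have hut' : S.γ i u = S.γ i t := hut
      have hteq : u = t := (S.arc i).inj ⟨hu'.1, hu'.2.trans hs2⟩ ⟨hs1.trans ht.1, ht.2⟩ hut'
      have : t = s1 := le_antisymm (hteq ▸ hu'.2) ht.1
      show S.γ i t ∈ insert (γ0 c) P
      rw [this, hs3]; exact Or.inl rfl
    · exact (inter_subset_inter hIsub' (hIsub i)).trans
        ((hP i1 i (Ne.symm h)).trans (subset_insert _ _))
  have m3 : ∀ i j, i ≠ j → I (some (some i)) ∩ I (some (some j)) ⊆ insert (γ0 c) P :=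
    fun i j hij => (inter_subset_inter (hIsub i) (hIsub j)).trans
      ((hP i j hij).trans (subset_insert _ _))
  have hsub' : ∀ x y, x ≠ y → I x ∩ I y ⊆ insert (γ0 c) P := by
    rintro (_ | _ | i) (_ | _ | j) hxy
    · exact absurd rfl hxy
    · exact m1 none
    · exact m1 (some j)
    · rw [inter_comm]; exact m1 none
    · exact absurd rfl hxy
    · exact m2 j
    · rw [inter_comm]; exact m1 (some i)
    · rw [inter_comm]; exact m2 i
    · exact m3 i j (fun h => hxy (by rw [h]))
  let S' : ArcSys T (Option (Option κ)) := ⟨γ', a', b', harc, hnull⟩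
  let φ : κ × Bool → Option (Option κ) × Bool := fun σ =>
    if σ.2 = true ∧ σ.1 = i1 then (some none, true) else (some (some σ.1), σ.2)
  have hφ : ∀ σ, S'.pos (φ σ) = S.pos σ := by
    rintro ⟨i, β⟩
    by_cases h : β = true ∧ i = i1
    · obtain ⟨rfl, rfl⟩ := h
      simp only [φ, and_self, if_true]
      rfl
    · simp only [φ, h, if_false]
      cases β
      · rfl
      · have hi : i ≠ i1 := fun hi => h ⟨rfl, hi⟩
        show S.γ i (if i = i1 then s1 else S.b i) = S.γ i (S.b i)
        simp [hi]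
  -- some links
  have l1 : Relation.EqvGen (Link S'.pos) (none, false) (none, true) :=
    Relation.EqvGen.rel _ _ (Or.inr rfl)
  have l2 : Relation.EqvGen (Link S'.pos) (none, true) (some none, false) := by
    apply Relation.EqvGen.rel
    left
    show γ0 c = S.γ i1 s1
    exact hs3.symm
  have l3 : Relation.EqvGen (Link S'.pos) (some none, false) (some none, true) :=
    Relation.EqvGen.rel _ _ (Or.inr rfl)
  have l4 : Relation.EqvGen (Link S'.pos) (some (some i1), true) (some none, false) := by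
    apply Relation.EqvGen.rel
    left
    show S.γ i1 (if i1 = i1 then s1 else S.b i1) = S.γ i1 s1
    simp
  have l5 : ∀ i, Relation.EqvGen (Link S'.pos) (some (some i), false) (some (some i), true) :=
    fun i => Relation.EqvGen.rel _ _ (Or.inr rfl)
  have hft : ∀ i, Relation.EqvGen (Link S'.pos) (φ (i, false)) (φ (i, true)) := by
    intro i
    have e1 : φ (i, false) = (some (some i), false) := by simp [φ]
    rw [e1]
    by_cases h : i = i1
    · subst h
      have e2 : φ (i, true) = (some none, true) := by simp [φ]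
      rw [e2]
      exact ((l5 i).trans _ _ _ l4).trans _ _ _ l3
    · have e2 : φ (i, true) = (some (some i), true) := by simp [φ, h]
      rw [e2]
      exact l5 i
  have hedge : ∀ i β β', Relation.EqvGen (Link S'.pos) (φ (i, β)) (φ (i, β')) := by
    intro i β β'
    cases β <;> cases β'
    · exact Relation.EqvGen.refl _
    · exact hft i
    · exact (hft i).symm _ _
    · exact Relation.EqvGen.refl _
  have hmap : ∀ σ τ, Relation.EqvGen (Link S.pos) σ τ →
      Relation.EqvGen (Link S'.pos) (φ σ) (φ τ) := by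
    intro σ τ h
    induction h with
    | rel σ τ h =>
      rcases h with h | h
      · apply Relation.EqvGen.rel
        left
        rw [hφ, hφ, h]
      · obtain ⟨i, β⟩ := σ
        obtain ⟨j, β'⟩ := τ
        simp only at h
        subst h
        exact hedge i β β'
    | refl σ => exact Relation.EqvGen.refl _
    | symm σ τ _ ih => exact ih.symm _ _
    | trans σ τ υ _ _ ih1 ih2 => exact ih1.trans _ _ _ ih2
  have hreach : ∀ τ, ∃ σ, Relation.EqvGen (Link S'.pos) τ (φ σ) := by
    have r1 : ∃ σ, Relation.EqvGen (Link S'.pos) (some none, true) (φ σ) := by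
      refine ⟨(i1, true), ?_⟩
      have : φ (i1, true) = (some none, true) := by simp [φ]
      rw [this]
      exact Relation.EqvGen.refl _
    have r2 : ∀ i, ∃ σ, Relation.EqvGen (Link S'.pos) (some (some i), false) (φ σ) := by
      intro i
      refine ⟨(i, false), ?_⟩
      have : φ (i, false) = (some (some i), false) := by simp [φ]
      rw [this]
      exact Relation.EqvGen.refl _
    rintro ⟨_ | _ | i, β⟩
    · obtain ⟨σ, hσ⟩ := r1
      have h : Relation.EqvGen (Link S'.pos) (none, true) (φ σ) :=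
        (l2.trans _ _ _ l3).trans _ _ _ hσ
      cases β
      · exact ⟨σ, l1.trans _ _ _ h⟩
      · exact ⟨σ, h⟩
    · obtain ⟨σ, hσ⟩ := r1
      cases β
      · exact ⟨σ, l3.trans _ _ _ hσ⟩
      · exact ⟨σ, hσ⟩
    · obtain ⟨σ, hσ⟩ := r2 i
      cases β
      · exact ⟨σ, hσ⟩
      · exact ⟨σ, ((l5 i).symm _ _).trans _ _ _ hσ⟩
  refine ⟨S', γ0 c, ?_, fun σ => ⟨φ σ, hφ σ⟩, ⟨(none, false), h0.left⟩, hsub'⟩
  intro σ τ
  obtain ⟨σ', h1⟩ := hreach σ
  obtain ⟨τ', h2⟩ := hreach τ
  exact (h1.trans _ _ _ (hmap _ _ (hS σ' τ'))).trans _ _ _ (h2.symm _ _)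

/-- A system of arcs through `x0` and the points of `F` that meet only in `|F| - 1` points. -/
lemma exists_sys2 {T : Set E} (hTc : IsCompact T) (hT : IsPreconnected T) (hfin : μH[1] T ≠ ⊤)
    {x0 : E} (hx0 : x0 ∈ T) (F : Finset E) (hF : (F : Set E) ⊆ T) (hne : F.Nonempty) :
    ∃ (κ : Type) (_ : Fintype κ) (S : ArcSys T κ) (Q : Finset E),
      Fintype.card κ + 1 = 2 * F.card ∧ Q.card + 1 ≤ F.card ∧
      Conn S.pos ∧ (∃ σ, S.pos σ = x0) ∧ (∀ f ∈ F, ∃ σ, S.pos σ = f) ∧
      ∀ i j, i ≠ j → S.γ i '' Icc (S.a i) (S.b i) ∩ S.γ j '' Icc (S.a j) (S.b j) ⊆ (Q : Set E) := by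
  classical
  induction F using Finset.induction_on with
  | empty => exact absurd hne (by simp)
  | insert f F hf ih =>
    have hfT : f ∈ T := hF (by simp)
    have hFT : (F : Set E) ⊆ T := fun y hy => hF (by
      rw [Finset.coe_insert]; exact Or.inr hy)
    rcases F.eq_empty_or_nonempty with h0 | h0
    · subst h0
      obtain ⟨γ, a, b, g⟩ := exists_arc hTc hT hfT hx0 hfin
      refine ⟨Unit, inferInstance, ⟨fun _ => γ, fun _ => a, fun _ => b, ?_, ?_⟩, ∅, by simp,
        by simp, ?_, ⟨((), true), g.right⟩, ?_, ?_⟩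
      · intro i
        exact g.sub le_rfl g.le le_rfl
      · intro i j hij
        exact absurd (Subsingleton.elim i j) hij
      · intro σ τ
        exact Relation.EqvGen.rel _ _ (Or.inr rfl)
      · intro y hy
        rw [Finset.insert_empty, Finset.mem_singleton] at hy
        exact ⟨((), false), by rw [hy]; exact g.left⟩
      · intro i j hij
        exact absurd (Subsingleton.elim i j) hij
    · obtain ⟨κ, hκ, S, Q, hcard, hQ, hconn, ⟨σ0, hσ0⟩, hpos, hint⟩ := ih hFT h0
      have hF1 : 1 ≤ F.card := Finset.card_pos.mpr h0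
      have hne' : Nonempty κ := by
        rw [← Fintype.card_pos_iff]; omega
      obtain ⟨S', q, hconn', hold, hnew, hint'⟩ := step2 hTc hT hfin S hconn (Q : Set E) hint hfT
      refine ⟨Option (Option κ), inferInstance, S', insert q Q, ?_, ?_, hconn', ?_, ?_, ?_⟩
      · rw [Fintype.card_option, Fintype.card_option, Finset.card_insert_of_notMem hf]
        omega
      · rw [Finset.card_insert_of_notMem hf]
        have := Finset.card_insert_le q Q
        omega
      · obtain ⟨τ, hτ⟩ := hold σ0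
        exact ⟨τ, hτ.trans hσ0⟩
      · intro y hy
        rw [Finset.mem_insert] at hy
        rcases hy with rfl | hy
        · exact hnew
        · obtain ⟨σ, hσ⟩ := hpos y hy
          obtain ⟨τ, hτ⟩ := hold σ
          exact ⟨τ, hτ.trans hσ⟩
      · intro i j hij
        rw [Finset.coe_insert]
        exact hint' i j hij

end metric

end Pool.Agent.Helper877_Fin
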